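import Pool.Agent.Helper20.KP.StHB

set_option autoImplicit false

namespace Pool.Agent.Helper30.KP

open Pool.Agent.Helper20.KP Pool.Agent.Helper52.KP Pool.Agent.Helper67.NO Filter Topology

universe u

/-- HB4: the image of the chart is dense in the orbit. -/
theorem hHB4 (hCNX : StCNX.{u}) (hHB1 : StHB1.{u}) (hHB2 : StHB2.{u}) :
    Pool.Agent.Helper20.KP.StHB4.{u} := by
  intro g _ _ _ _ x₀ hx₀ hnil C x hx
  obtain ⟨-, -, hph, -⟩ := hHB1 g x₀ hx₀ hnil C (mkOD C) rfl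
  obtain ⟨hfr, hcht⟩ := hHB2 g x₀ hx₀ hnil C
  obtain ⟨x', hx', rfl⟩ := hx
  have hx'' : Orb x₀ x' := hx'
  obtain ⟨X, hX⟩ := hfr x' hx''
  have hc := hcht x' hx'' X hX
  -- the function p₁ is not zero
  have hp1 : C.p₁ ≠ 0 := by
    have hU : ∃ z, MvPolynomial.eval z C.Δ ≠ 0 := by
      by_contra hcon
      push Not at hcon
      exact C.Δ0 (MvPolynomial.funext (fun z => by rw [hcon z, map_zero]))
    obtain ⟨z, hz⟩ := hU
    intro h0
    have h1 : C.p₁ ⟨C.Φ z, C.orb z hz⟩ ≠ 0 := (C.p1 _).mpr ⟨z, hz, rfl⟩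
    rw [h0] at h1
    exact h1 rfl
  rw [mem_closure_iff]
  intro o ho hxo
  have hV : IsOpen ((fun w => co (chart x' X w)) ⁻¹' o) := ho.preimage hc.dif.continuous
  have hV0 : (0 : Fin C.m → ℂ) ∈ ((fun w => co (chart x' X w)) ⁻¹' o) := by
    have h1 : (fun w => co (chart x' X w)) 0 = co x' := hc.zero
    change (fun w => co (chart x' X w)) 0 ∈ o
    rw [h1]
    exact hxo
  obtain ⟨w, hw, hw'⟩ := hCNX g x₀ hx₀ hnil C.d₁ C.p₁ C.p1mem hp1 ⟨x', hx''⟩ C.m X hX _ hV ⟨0, hV0⟩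
  have hex : ∃ h : Orb x₀ (chart x' X w), C.p₁ ⟨chart x' X w, h⟩ ≠ 0 := by
    by_cases h : Orb x₀ (chart x' X w)
    · refine ⟨h, ?_⟩
      simpa [ext, h] using hw'
    · exfalso
      apply hw'
      simp [ext, h]
  obtain ⟨h, h'⟩ := hex
  obtain ⟨z, hz, hzw⟩ := (C.p1 _).mp h'
  refine ⟨co (chart x' X w), hw, z, hz, ?_⟩
  rw [hph z, hzw]

end Pool.Agent.Helper30.KP
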