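import Pool.Agent.Helper20.KP.StH

set_option autoImplicit false

namespace Pool.Agent.Helper30.KP

open Pool.Agent.Helper20.KP Pool.Agent.Helper52.KP Filter Topology

/-- HCS: holomorphic functions of degree zero on the orbit are constant. -/
theorem hHCS (hHFX : StHFX) (hHPL : StHPL) (hHCO : StHCO) (hHOC : StHOC) :
    Pool.Agent.Helper20.KP.StHCS := by
  intro D hD F hF hF0
  by_cases hO : D.O.Nonempty
  swap
  · exact ⟨0, fun x hx => (hO ⟨x, hx⟩).elim⟩
  obtain ⟨x₀, hx₀⟩ := hO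
  obtain ⟨Y, Dc, rd, hFB⟩ := hHFX D hD
  have hcont : ContinuousOn F D.O := (hHOC D hD).1 F hF
  obtain ⟨-, hco, -⟩ := hHCO D hD Y Dc rd hFB F hF
  -- the coefficients are constants
  have hconst : ∀ i, ∃ a : ℂ, i ≤ rd → ∀ y, ev Dc y ≠ 0 → D.co Y F i y = a := by
    intro i
    by_cases hi : i ≤ rd
    · obtain ⟨P, hP, hP'⟩ := hHPL D hD Y Dc rd hFB 0 F hF hF0 i hi
      rw [zero_mul] at hP
      have hdeg : P.totalDegree = 0 := Nat.le_zero.mp hP.totalDegree_le
      rw [MvPolynomial.totalDegree_eq_zero_iff_eq_C] at hdeg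
      refine ⟨P.coeff 0, fun _ y hy => ?_⟩
      rw [hP' y hy, hdeg]
      simp [ev]
    · exact ⟨0, fun h => (hi h).elim⟩
  choose a ha using hconst
  set p : Polynomial ℂ := ∑ i ∈ Finset.range (rd + 1), Polynomial.C (a i) * Polynomial.X ^ i with hp
  have hdns := hFB.dns Dc hFB.D0
  have hne : ∃ y, ev Dc y ≠ 0 := by
    have h1 : (closure {x | x ∈ D.O ∧ ev Dc (Y x) ≠ 0}).Nonempty := ⟨x₀, hdns hx₀⟩
    rw [closure_nonempty_iff] at h1
    obtain ⟨x, -, hx⟩ := h1
    exact ⟨Y x, hx⟩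
  have hp0 : p ≠ 0 := by
    obtain ⟨y, hy⟩ := hne
    have h1 : a rd = 1 := by
      rw [← ha rd le_rfl y hy]
      exact (hco y hy).2.2.1
    intro h0
    have h2 : p.coeff rd = 1 := by
      rw [hp, Polynomial.finset_sum_coeff, Finset.sum_eq_single rd]
      · rw [Polynomial.coeff_C_mul, Polynomial.coeff_X_pow, if_pos rfl, mul_one, h1]
      · intro i _ hi
        rw [Polynomial.coeff_C_mul, Polynomial.coeff_X_pow, if_neg hi.symm, mul_zero]
      · intro h
        exact (h (Finset.mem_range.mpr (Nat.lt_succ_self rd))).elim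
    rw [h0, Polynomial.coeff_zero] at h2
    exact zero_ne_one h2
  set R : Set ℂ := {z | p.eval z = 0} with hR
  have hRfin : R.Finite := by
    have : R = (p.roots.toFinset : Set ℂ) := by
      ext z
      simp [hR, Polynomial.mem_roots hp0, Polynomial.IsRoot]
    rw [this]
    exact Finset.finite_toSet _
  have hmem : ∀ x ∈ D.O, F x ∈ R := by
    intro x hx
    have h1 : ContinuousWithinAt F {x | x ∈ D.O ∧ ev Dc (Y x) ≠ 0} x :=
      (hcont x hx).mono (fun z hz => hz.1)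
    have h2 : Set.MapsTo F {x | x ∈ D.O ∧ ev Dc (Y x) ≠ 0} R := by
      rintro z ⟨hz1, hz2⟩
      have h3 := (hco (Y z) hz2).2.2.2.2.1 z ⟨hz1, rfl⟩
      change p.eval (F z) = 0
      rw [← h3, hp, Polynomial.eval_finset_sum]
      apply Finset.sum_congr rfl
      intro i hi
      rw [ha i (Nat.lt_succ_iff.mp (Finset.mem_range.mp hi)) (Y z) hz2]
      simp
    have h3 := h1.mem_closure (hdns hx) h2
    rwa [hRfin.isClosed.closure_eq] at h3
  refine ⟨F x₀, ?_⟩
  have hopen : IsOpen (R \ {F x₀})ᶜ := (hRfin.subset Set.diff_subset).isClosed.isOpen_compl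
  have hin : F x₀ ∈ (R \ {F x₀})ᶜ := fun h => h.2 rfl
  obtain ⟨V, hV1, hV2, hV3⟩ := mem_nhdsWithin.mp
    ((hcont x₀ hx₀).preimage_mem_nhdsWithin (hopen.mem_nhds hin))
  apply hD.idp F hF hF0 (F x₀) V hV1 ⟨x₀, hV2, hx₀⟩
  intro x hx
  by_contra hne'
  exact hV3 hx ⟨hmem x hx.2, hne'⟩

end Pool.Agent.Helper30.KP
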