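import Pool.Agent.Helper30.KP.Level

/-!
# Counting the empty triangles of the rule
-/

namespace Pool.Agent.Helper30.KP

open Finset

/-- the triangle attached to two lines of the level `v` -/
def tau (k v r s : ℕ) : ℕ × ℕ × ℕ :=
  if r < s then (if r + s ≤ tp k then (r, s, r + s) else (r + s - tp k, r, s))
  else if s < r then
    (if r + s < tp k then (s, r, r + s + 2 ^ (v + 1)) else (r + s - tp k - 2 ^ (v + 1), s, r))
  else
    (if 2 * r < tp k then (r, 2 * r, 2 * r + 2 ^ (v + 1))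
      else (2 * r - tp k - 2 ^ (v + 1), 2 * r - tp k, r))

/-- the inverse of `tau` -/
def dec (k : ℕ) (t : ℕ × ℕ × ℕ) : ℕ × ℕ :=
  if lv k t.1 = lv k t.2.1 then (if t.2.2 = t.1 + t.2.1 then (t.1, t.2.1) else (t.2.1, t.1))
  else if lv k t.2.1 = lv k t.2.2 then
    (if t.1 + tp k = t.2.1 + t.2.2 then (t.2.1, t.2.2) else (t.2.2, t.2.1))
  else if lv k t.1 < lv k t.2.1 then (t.1, t.1)
  else (t.2.2, t.2.2)

/-- the properties of a listed triangle -/
def Ok (k : ℕ) (t : ℕ × ℕ × ℕ) : Prop :=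
  IsTri k t.1 t.2.1 t.2.2 ∧ IsW k t.1 t.2.1 t.2.2

/-- some line of the triple is not a base line -/
def Lo (k : ℕ) (t : ℕ × ℕ × ℕ) : Prop := lv k t.1 < k ∨ lv k t.2.1 < k ∨ lv k t.2.2 < k

lemma tau_spec {k v r s : ℕ} (hv : v < k) (hr0 : 0 < r) (hr : r < tp k) (hs0 : 0 < s)
    (hs : s < tp k) (hlr : lv k r = v) (hls : lv k s = v) (hex : ¬ (r + s = tp k ∧ s < r)) :
    Ok k (tau k v r s) ∧ dec k (tau k v r s) = (r, s) ∧ Lo k (tau k v r s) := by
  have hM : 0 < 2 ^ (v + 1) := by positivity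
  have hN : v < lv k (tp k) := by rw [lv_tp]; omega
  have hsum : v < lv k (r + s) := lv_add_gt (by omega) hlr hls
  unfold tau
  split_ifs with h1 h2 h3 h4 h5
  · -- r < s, r + s ≤ N
    refine ⟨(show IsTri k (r) (s) (r + s) ∧ IsW k (r) (s) (r + s) from tri_A hv hr0 hlr hls h1 (Or.inl rfl) h2), ?_, Or.inl (by simp only; omega)⟩
    simp [dec, hlr, hls]
  · -- r < s, N < r + s
    have e1 : r + s - tp k = tp k - ((tp k - r) + (tp k - s)) := by omega
    have l1 : v < lv k (r + s - tp k) := by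
      rw [e1, lv_mirror (by omega)]
      exact lv_add_gt (by omega) (by rw [lv_mirror hr.le]; exact hlr)
        (by rw [lv_mirror hs.le]; exact hls)
    refine ⟨(show IsTri k (r + s - tp k) (r) (s) ∧ IsW k (r + s - tp k) (r) (s) from 
      tri_A' hv hlr hls h1 hs (by omega) (Or.inl (by omega))), ?_,
      Or.inr (Or.inl (by simp only; omega))⟩
    have n1 : lv k (r + s - tp k) ≠ lv k r := by omega
    have n2 : lv k r = lv k s := by rw [hlr, hls]
    have n3 : r + s - tp k + tp k = r + s := by omega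
    simp only [dec, if_neg n1, if_pos n2, if_pos n3]
  · -- s < r, r + s < N
    have g := gap_high (by omega) hsum hN h4
    refine ⟨(show IsTri k (s) (r) (r + s + 2 ^ (v + 1)) ∧ IsW k (s) (r) (r + s + 2 ^ (v + 1)) from 
      tri_A hv hs0 hls hlr h3 (Or.inr (by omega)) g), ?_, Or.inl (by simp only; omega)⟩
    have n2 : lv k s = lv k r := by rw [hlr, hls]
    have n3 : ¬ (r + s + 2 ^ (v + 1) = s + r) := by omega
    simp only [dec, if_pos n2, if_neg n3]
  · -- s < r, N < r + s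
    have g := gap_high (by omega) hN hsum (by omega)
    have e1 : r + s - tp k - 2 ^ (v + 1) =
        tp k - ((tp k - r) + (tp k - s) + 2 ^ (v + 1)) := by omega
    have l1 : v < lv k (r + s - tp k - 2 ^ (v + 1)) := by
      rw [e1, lv_mirror (by omega)]
      exact lv_add_gt' (by omega) (lv_add_gt (by omega) (by rw [lv_mirror hr.le]; exact hlr)
        (by rw [lv_mirror hs.le]; exact hls)) (lv_pow_succ (by omega))
    refine ⟨(show IsTri k (r + s - tp k - 2 ^ (v + 1)) (s) (r) ∧ IsW k (r + s - tp k - 2 ^ (v + 1)) (s) (r) from 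
      tri_A' hv hls hlr h3 hr (by omega) (Or.inr (by omega))), ?_,
      Or.inr (Or.inl (by simp only; omega))⟩
    have n1 : lv k (r + s - tp k - 2 ^ (v + 1)) ≠ lv k s := by omega
    have n2 : lv k s = lv k r := by rw [hlr, hls]
    have n3 : ¬ (r + s - tp k - 2 ^ (v + 1) + tp k = s + r) := by omega
    simp only [dec, if_neg n1, if_pos n2, if_neg n3]
  · -- 2 r < N
    have hrs : r = s := by omega
    subst hrs
    have hsum' : v < lv k (2 * r) := by rw [lv_two_mul (by omega) hlr]; omega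
    have g := gap_high (by omega) hsum' hN h5
    refine ⟨(show IsTri k (r) (2 * r) (2 * r + 2 ^ (v + 1)) ∧ IsW k (r) (2 * r) (2 * r + 2 ^ (v + 1)) from tri_B hv hr0 hlr g), ?_, Or.inl (by simp only; omega)⟩
    have l2 := lv_two_mul (by omega) hlr
    have l3 := lv_two_mul_add (by omega) hlr
    have n1 : lv k r ≠ lv k (2 * r) := by omega
    have n2 : lv k (2 * r) ≠ lv k (2 * r + 2 ^ (v + 1)) := by omega
    have n3 : lv k r < lv k (2 * r) := by omega
    simp only [dec, if_neg n1, if_neg n2, if_pos n3]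
  · -- N < 2 r
    have hrs : r = s := by omega
    subst hrs
    have hne : 2 * r ≠ tp k := by
      intro h
      have l2 := lv_two_mul (k := k) (v := v) (by omega) hlr
      rw [h, lv_tp] at l2
      omega
    have hlr' : lv k (tp k - r) = v := by rw [lv_mirror hr.le]; exact hlr
    have l2 := lv_two_mul (k := k) (by omega) hlr'
    have l3 := lv_two_mul_add (k := k) (by omega) hlr'
    have hsum' : v < lv k (2 * (tp k - r)) := by omega
    have g := gap_high (by omega) hsum' hN (by omega)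
    have e1 : 2 * r - tp k = tp k - 2 * (tp k - r) := by omega
    have e2 : 2 * r - tp k - 2 ^ (v + 1) = tp k - (2 * (tp k - r) + 2 ^ (v + 1)) := by omega
    have l2' : lv k (2 * r - tp k) = v + 1 := by rw [e1, lv_mirror (by omega)]; exact l2
    have l3' : v + 1 < lv k (2 * r - tp k - 2 ^ (v + 1)) := by
      rw [e2, lv_mirror (by omega)]; exact l3
    refine ⟨(show IsTri k (2 * r - tp k - 2 ^ (v + 1)) (2 * r - tp k) (r) ∧ IsW k (2 * r - tp k - 2 ^ (v + 1)) (2 * r - tp k) (r) from 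
      tri_B' hv hlr hr (by omega)), ?_, Or.inr (Or.inr (by simp only; omega))⟩
    have n1 : lv k (2 * r - tp k - 2 ^ (v + 1)) ≠ lv k (2 * r - tp k) := by omega
    have n2 : lv k (2 * r - tp k) ≠ lv k r := by omega
    have n3 : ¬ lv k (2 * r - tp k - 2 ^ (v + 1)) < lv k (2 * r - tp k) := by omega
    simp only [dec, if_neg n1, if_neg n2, if_neg n3]

/-- the number of lines of level `v` -/
def nl (k v : ℕ) : ℕ := 3 * 2 ^ (k - v)

/-- the index set of the admissible pairs of lines of equal level -/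
def idx (k : ℕ) : Finset (Σ _ : ℕ, ℕ × ℕ) :=
  (range k).sigma (fun v => (range (nl k v) ×ˢ range (nl k v)).filter
    (fun x => ¬ (x.1 + x.2 + 1 = nl k v ∧ x.2 < x.1)))

lemma card_ex (h : ℕ) : ((range (2 * h) ×ˢ range (2 * h)).filter
    (fun x => x.1 + x.2 + 1 = 2 * h ∧ x.2 < x.1)).card = h := by
  have : (range (2 * h) ×ˢ range (2 * h)).filter
      (fun x => x.1 + x.2 + 1 = 2 * h ∧ x.2 < x.1) =
      (range h).image (fun b => (2 * h - 1 - b, b)) := by
    ext ⟨a, b⟩
    simp only [mem_filter, mem_product, mem_range, mem_image, Prod.mk.injEq]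
    constructor
    · rintro ⟨⟨h1, h2⟩, h3, h4⟩
      exact ⟨b, by omega, by omega, rfl⟩
    · rintro ⟨c, h1, h2, h3⟩
      subst h3
      refine ⟨⟨by omega, by omega⟩, by omega, by omega⟩
  rw [this, Finset.card_image_of_injective _ (by
    intro a b hab
    simp only [Prod.mk.injEq] at hab
    exact hab.2), Finset.card_range]

lemma card_ok (h : ℕ) : ((range (2 * h) ×ˢ range (2 * h)).filter
    (fun x => ¬ (x.1 + x.2 + 1 = 2 * h ∧ x.2 < x.1))).card + h = 4 * h * h := by
  have h1 := Finset.card_filter_add_card_filter_not (s := range (2 * h) ×ˢ range (2 * h))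
    (fun x => x.1 + x.2 + 1 = 2 * h ∧ x.2 < x.1)
  rw [card_ex, Finset.card_product, Finset.card_range] at h1
  have h2 : 2 * h * (2 * h) = 4 * h * h := by ring
  omega

lemma card_idx (k : ℕ) : (idx k).card + 3 * 2 ^ k + 9 = 12 * 4 ^ k := by
  have h1 : ∀ k : ℕ, (∑ v ∈ range k, ((range (nl k v) ×ˢ range (nl k v)).filter
      (fun x => ¬ (x.1 + x.2 + 1 = nl k v ∧ x.2 < x.1))).card) + 3 * 2 ^ k + 9 = 12 * 4 ^ k := by
    intro k
    induction k with
    | zero => simp
    | succ k ih =>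
      rw [Finset.sum_range_succ']
      have e1 : ∀ v ∈ range k, ((range (nl (k + 1) (v + 1)) ×ˢ range (nl (k + 1) (v + 1))).filter
          (fun x => ¬ (x.1 + x.2 + 1 = nl (k + 1) (v + 1) ∧ x.2 < x.1))).card =
          ((range (nl k v) ×ˢ range (nl k v)).filter
          (fun x => ¬ (x.1 + x.2 + 1 = nl k v ∧ x.2 < x.1))).card := by
        intro v hv
        have : nl (k + 1) (v + 1) = nl k v := by
          unfold nl; congr 2; omega
        rw [this]
      rw [Finset.sum_congr rfl e1]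
      have e2 : nl (k + 1) 0 = 2 * (3 * 2 ^ k) := by
        unfold nl
        rw [Nat.sub_zero, pow_succ]; ring
      rw [e2]
      have e3 := card_ok (3 * 2 ^ k)
      have e4 : 4 * (3 * 2 ^ k) * (3 * 2 ^ k) = 36 * 4 ^ k := by
        have e7 : (4 : ℕ) ^ k = 2 ^ k * 2 ^ k := by rw [← mul_pow]; norm_num
        rw [e7]; ring
      rw [e4] at e3
      have e5 : (4 : ℕ) ^ (k + 1) = 4 * 4 ^ k := by rw [pow_succ]; ring
      have e6 : (2 : ℕ) ^ (k + 1) = 2 * 2 ^ k := by rw [pow_succ]; ring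
      rw [e5, e6]
      omega
  unfold idx
  rw [Finset.card_sigma]
  exact h1 k

/-- the lines of level `v` -/
def ev (v a : ℕ) : ℕ := 2 ^ (v + 1) * a + 2 ^ v

lemma tp_nl {k v : ℕ} (hv : v < k) : tp k = 2 ^ (v + 1) * nl k v := by
  unfold tp nl
  have h1 : (2 : ℕ) ^ k = 2 ^ v * 2 ^ (k - v) := by rw [← pow_add]; congr 1; omega
  rw [h1, pow_succ]; ring

lemma ev_spec {k v a : ℕ} (hv : v < k) (ha : a < nl k v) :
    0 < ev v a ∧ ev v a < tp k ∧ lv k (ev v a) = v := by
  refine ⟨by unfold ev; positivity, ?_, lv_of_mod (by omega) rfl⟩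
  have h2 : 2 ^ (v + 1) * (a + 1) ≤ 2 ^ (v + 1) * nl k v := Nat.mul_le_mul_left _ ha
  have h3 : 2 ^ v < 2 ^ (v + 1) := Nat.pow_lt_pow_right (by norm_num) (by omega)
  rw [tp_nl hv]
  unfold ev
  rw [mul_add, mul_one] at h2
  omega

lemma ev_inj {v a b : ℕ} (h : ev v a = ev v b) : a = b := by
  unfold ev at h
  have h1 : 2 ^ (v + 1) * a = 2 ^ (v + 1) * b := by omega
  exact Nat.eq_of_mul_eq_mul_left (by positivity) h1

/-- the triangle with a given index -/
def tr (k : ℕ) (x : Σ _ : ℕ, ℕ × ℕ) : ℕ × ℕ × ℕ := tau k x.1 (ev x.1 x.2.1) (ev x.1 x.2.2)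

lemma tr_spec {k : ℕ} {x : Σ _ : ℕ, ℕ × ℕ} (hx : x ∈ idx k) :
    Ok k (tr k x) ∧ dec k (tr k x) = (ev x.1 x.2.1, ev x.1 x.2.2) ∧ Lo k (tr k x) := by
  obtain ⟨v, a, b⟩ := x
  simp only [idx, mem_sigma, mem_filter, mem_product, mem_range] at hx
  obtain ⟨hv2, ⟨ha, hb⟩, hex⟩ := hx
  obtain ⟨a1, a2, a3⟩ := ev_spec hv2 ha
  obtain ⟨b1, b2, b3⟩ := ev_spec hv2 hb
  apply tau_spec (v := v) hv2 a1 a2 b1 b2 a3 b3
  rintro ⟨h1, h2⟩
  apply hex
  simp only [ev] at h1 h2
  rw [tp_nl hv2] at h1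
  have h3 : (2 : ℕ) ^ (v + 1) = 2 * 2 ^ v := by rw [pow_succ]; ring
  constructor
  · have h4 : 2 ^ (v + 1) * (a + b + 1) = 2 ^ (v + 1) * nl k v := by
      rw [← h1, mul_add, mul_add, mul_one, h3]; ring
    exact Nat.eq_of_mul_eq_mul_left (by positivity) h4
  · have h4 : 2 ^ (v + 1) * b < 2 ^ (v + 1) * a := by omega
    exact Nat.lt_of_mul_lt_mul_left h4

lemma tr_inj {k : ℕ} : Set.InjOn (tr k) (idx k : Set (Σ _ : ℕ, ℕ × ℕ)) := by
  intro x hx y hy hxy
  have h1 := (tr_spec (Finset.mem_coe.mp hx)).2.1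
  have h2 := (tr_spec (Finset.mem_coe.mp hy)).2.1
  rw [hxy, h2] at h1
  obtain ⟨v, a, b⟩ := x
  obtain ⟨w, c, d⟩ := y
  simp only [Prod.mk.injEq] at h1
  have hx' := Finset.mem_coe.mp hx
  have hy' := Finset.mem_coe.mp hy
  simp only [idx, mem_sigma, mem_filter, mem_product, mem_range] at hx' hy'
  have l1 := (ev_spec hx'.1 hx'.2.1.1).2.2
  have l2 := (ev_spec hy'.1 hy'.2.1.1).2.2
  have hvw : v = w := by rw [← l1, ← l2, h1.1]
  subst hvw
  have e1 := ev_inj h1.1
  have e2 := ev_inj h1.2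
  rw [e1, e2]

/-- the base triangles -/
def bl : Finset (ℕ × ℕ × ℕ) :=
  {(0, 1, 5), (0, 2, 5), (0, 2, 6), (1, 3, 5), (1, 3, 6), (1, 4, 6), (2, 3, 5), (2, 4, 5),
    (2, 4, 6)}

/-- all triangles; the last line `tp k + 1` is the old line at infinity -/
def fam (k : ℕ) : Finset (ℕ × ℕ × ℕ) :=
  ((idx k).image (tr k) ∪ bl.image (fun t => (t.1 * 2 ^ k, t.2.1 * 2 ^ k, t.2.2 * 2 ^ k))) ∪
    (range (tp k)).image (fun i => (i, i + 1, tp k + 1))

lemma card_fam (k : ℕ) : (fam k).card = 12 * 4 ^ k + 3 * 2 ^ k := by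
  have hp : 0 < 2 ^ k := by positivity
  have hbl : ∀ t ∈ bl, t.2.2 ≤ 6 := by decide
  have hlv : ∀ j, k ≤ lv k (j * 2 ^ k) := by
    intro j
    rw [le_lv_iff (by omega)]
    exact Dvd.intro_left _ rfl
  have hd1 : Disjoint ((idx k).image (tr k))
      (bl.image (fun t => (t.1 * 2 ^ k, t.2.1 * 2 ^ k, t.2.2 * 2 ^ k))) := by
    rw [Finset.disjoint_left]
    intro t h1 h2
    obtain ⟨x, hx, rfl⟩ := Finset.mem_image.mp h1
    obtain ⟨y, _, hy⟩ := Finset.mem_image.mp h2
    have h3 := (tr_spec hx).2.2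
    rw [← hy] at h3
    unfold Lo at h3
    simp only at h3
    have g1 := hlv y.1
    have g2 := hlv y.2.1
    have g3 := hlv y.2.2
    omega
  have hd2 : Disjoint ((idx k).image (tr k) ∪
      bl.image (fun t => (t.1 * 2 ^ k, t.2.1 * 2 ^ k, t.2.2 * 2 ^ k)))
      ((range (tp k)).image (fun i => (i, i + 1, tp k + 1))) := by
    rw [Finset.disjoint_left]
    intro t h1 h2
    obtain ⟨y, _, hy⟩ := Finset.mem_image.mp h2
    rcases Finset.mem_union.mp h1 with h1 | h1
    · obtain ⟨x, hx, rfl⟩ := Finset.mem_image.mp h1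
      have h3 := (tr_spec hx).1.1.2.2.1
      rw [← hy] at h3
      simp only at h3
      omega
    · obtain ⟨x, hx, rfl⟩ := Finset.mem_image.mp h1
      have h4 := hbl x hx
      simp only [Prod.mk.injEq] at hy
      have h5 : x.2.2 * 2 ^ k ≤ 6 * 2 ^ k := Nat.mul_le_mul_right _ h4
      have h6 : tp k = 6 * 2 ^ k := rfl
      omega
  unfold fam
  rw [Finset.card_union_of_disjoint hd2, Finset.card_union_of_disjoint hd1,
    Finset.card_image_of_injOn tr_inj, Finset.card_image_of_injective _ (by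
      intro a b h
      simp only [Prod.mk.injEq] at h
      obtain ⟨h1, h2, h3⟩ := h
      have e1 := Nat.eq_of_mul_eq_mul_right hp h1
      have e2 := Nat.eq_of_mul_eq_mul_right hp h2
      have e3 := Nat.eq_of_mul_eq_mul_right hp h3
      ext <;> assumption), Finset.card_image_of_injective _ (by
      intro a b h
      simp only [Prod.mk.injEq] at h
      exact h.1), Finset.card_range]
  have h1 := card_idx k
  have h2 : bl.card = 9 := by decide
  have h3 : tp k = 6 * 2 ^ k := rfl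
  omega

end Pool.Agent.Helper30.KP
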