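import Pool.Agent.Helper30.KO.Lines

/-!
# Lines given by linear equations
-/

namespace Pool.Agent.Helper30.KP

open Finset Pool.Agent.Helper30.KO

/-- the line `α x + β y = γ` -/
def fl (α β γ : ℕ → ℝ) (q : ℕ) : Set Plane := {p | α q * p 0 + β q * p 1 = γ q}

/-- the affine function of the line -/
def fn (α β γ : ℕ → ℝ) (q : ℕ) (z : Plane) : ℝ := α q * z 0 + β q * z 1 - γ q

/-- the determinant of two directions -/
def Wd (α β : ℕ → ℝ) (i j : ℕ) : ℝ := α i * β j - α j * β i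

/-- the determinant of three lines -/
def Dt (α β γ : ℕ → ℝ) (i j l : ℕ) : ℝ :=
  α i * (β j * γ l - β l * γ j) - β i * (α j * γ l - α l * γ j) + γ i * (α j * β l - α l * β j)

/-- the crossing of two lines -/
noncomputable def vx (α β γ : ℕ → ℝ) (i j : ℕ) : Plane :=
  !₂[(γ i * β j - γ j * β i) / Wd α β i j, (α i * γ j - α j * γ i) / Wd α β i j]

variable {α β γ : ℕ → ℝ}

lemma fl_isLine {q : ℕ} (h : α q ≠ 0 ∨ β q ≠ 0) : IsLine (fl α β γ q) :=
  ⟨α q, β q, γ q, h, rfl⟩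

lemma mem_fl {q : ℕ} {z : Plane} : z ∈ fl α β γ q ↔ fn α β γ q z = 0 := by
  simp only [fl, fn, Set.mem_ofPred_eq]
  constructor <;> intro h <;> linarith

lemma fn_vx {q a b : ℕ} (h : Wd α β a b ≠ 0) :
    fn α β γ q (vx α β γ a b) = - (Dt α β γ q a b * Wd α β a b) / (Wd α β a b) ^ 2 := by
  simp only [fn, vx, Dt]
  simp
  field_simp
  unfold Wd
  ring

lemma vx_mem1 {a b : ℕ} (h : Wd α β a b ≠ 0) : vx α β γ a b ∈ fl α β γ a := by
  rw [mem_fl, fn_vx h]
  have : Dt α β γ a a b = 0 := by unfold Dt; ring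
  rw [this]; simp

lemma vx_mem2 {a b : ℕ} (h : Wd α β a b ≠ 0) : vx α β γ a b ∈ fl α β γ b := by
  rw [mem_fl, fn_vx h]
  have : Dt α β γ b a b = 0 := by unfold Dt; ring
  rw [this]; simp

/-- two different lines which are not parallel have only one common point -/
lemma fl_unique {i j : ℕ} (h : Wd α β i j ≠ 0) {z z' : Plane} (h1 : z ∈ fl α β γ i)
    (h2 : z ∈ fl α β γ j) (h3 : z' ∈ fl α β γ i) (h4 : z' ∈ fl α β γ j) : z = z' := by
  simp only [fl, Set.mem_ofPred_eq] at h1 h2 h3 h4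
  unfold Wd at h
  have e0 : (α i * β j - α j * β i) * (z 0 - z' 0) = 0 := by
    linear_combination β j * (h1 - h3) - β i * (h2 - h4)
  have e1 : (α i * β j - α j * β i) * (z 1 - z' 1) = 0 := by
    linear_combination α i * (h2 - h4) - α j * (h1 - h3)
  have f0 := (mul_eq_zero.mp e0).resolve_left h
  have f1 := (mul_eq_zero.mp e1).resolve_left h
  apply plane_ext
  · linarith
  · linarith

/-- a line which does not separate the vertices misses the interior -/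
lemma fl_disj {q : ℕ} (hq : α q ≠ 0 ∨ β q ≠ 0) {S : Set Plane}
    (h : (∀ z ∈ S, 0 ≤ fn α β γ q z) ∨ (∀ z ∈ S, fn α β γ q z ≤ 0)) :
    Disjoint (fl α β γ q) (interior (convexHull ℝ S)) := by
  have hpos : 0 < α q ^ 2 + β q ^ 2 := by
    rcases hq with h | h <;> positivity
  have hph : ∀ (x y : Plane) (s t : ℝ), s + t = 1 →
      fn α β γ q (s • x + t • y) = s * fn α β γ q x + t * fn α β γ q y := by
    intro x y s t hst
    simp only [fn, PiLp.add_apply, PiLp.smul_apply, smul_eq_mul]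
    linear_combination (γ q) * hst
  -- a point of the interior can be moved
  have hmove : ∀ z ∈ interior (convexHull ℝ S), ∃ ε > 0, ∀ t : ℝ, |t| < ε →
      (z + !₂[t * α q, t * β q] : Plane) ∈ convexHull ℝ S := by
    intro z hz
    obtain ⟨ε, hε, hb⟩ := Metric.isOpen_iff.mp isOpen_interior z hz
    have hs : 0 < Real.sqrt (α q ^ 2 + β q ^ 2) := Real.sqrt_pos.mpr hpos
    refine ⟨ε / Real.sqrt (α q ^ 2 + β q ^ 2), by positivity, fun t ht => interior_subset (hb ?_)⟩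
    rw [Metric.mem_ball, dist_eq_norm]
    have e1 : z + (!₂[t * α q, t * β q] : Plane) - z = !₂[t * α q, t * β q] := by abel
    rw [e1, EuclideanSpace.norm_eq]
    simp only [Fin.sum_univ_two]
    have e2 : ‖(!₂[t * α q, t * β q] : Plane) 0‖ ^ 2 + ‖(!₂[t * α q, t * β q] : Plane) 1‖ ^ 2 =
        t ^ 2 * (α q ^ 2 + β q ^ 2) := by
      simp [mul_pow, sq_abs]
      ring
    rw [e2, Real.sqrt_mul (sq_nonneg t), Real.sqrt_sq_eq_abs]
    rwa [lt_div_iff₀ hs] at ht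
  have hval : ∀ (z : Plane) (t : ℝ), fn α β γ q (z + !₂[t * α q, t * β q]) =
      fn α β γ q z + t * (α q ^ 2 + β q ^ 2) := by
    intro z t
    simp [fn]
    ring
  rw [Set.disjoint_left]
  intro z hz1 hz2
  rw [mem_fl] at hz1
  obtain ⟨ε, hε, hm⟩ := hmove z hz2
  rcases h with h | h
  · have hsub : convexHull ℝ S ⊆ {x | 0 ≤ fn α β γ q x} := by
      apply convexHull_min h
      intro x hx y hy s t hs ht hst
      have hx' : 0 ≤ fn α β γ q x := hx
      have hy' : 0 ≤ fn α β γ q y := hy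
      change 0 ≤ fn α β γ q (s • x + t • y)
      rw [hph x y s t hst]
      positivity
    have h1 := hsub (hm (-(ε / 2)) (by rw [abs_neg, abs_of_pos (by positivity)]; linarith))
    simp only [Set.mem_ofPred_eq, hval, hz1] at h1
    nlinarith [mul_pos hε hpos]
  · have hsub : convexHull ℝ S ⊆ {x | fn α β γ q x ≤ 0} := by
      apply convexHull_min h
      intro x hx y hy s t hs ht hst
      have hx' : fn α β γ q x ≤ 0 := hx
      have hy' : fn α β γ q y ≤ 0 := hy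
      change fn α β γ q (s • x + t • y) ≤ 0
      rw [hph x y s t hst]
      have h1 : s * fn α β γ q x ≤ 0 := mul_nonpos_of_nonneg_of_nonpos hs hx
      have h2 : t * fn α β γ q y ≤ 0 := mul_nonpos_of_nonneg_of_nonpos ht hy
      linarith
    have h1 := hsub (hm (ε / 2) (by rw [abs_of_pos (by positivity)]; linarith))
    simp only [Set.mem_ofPred_eq, hval, hz1] at h1
    nlinarith [mul_pos hε hpos]

lemma D_vx {a b c : ℕ} (h1 : Wd α β a b ≠ 0) (h2 : Wd α β a c ≠ 0) (h3 : Wd α β b c ≠ 0) :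
    D (vx α β γ a b) (vx α β γ a c) (vx α β γ b c) =
      (Dt α β γ a b c) ^ 2 / (Wd α β a b * Wd α β a c * Wd α β b c) := by
  simp only [D, vx]
  simp
  field_simp
  unfold Wd Dt
  ring

/-- an empty triangle of the lines `0, ..., M` -/
structure Tri (α β γ : ℕ → ℝ) (M a b c : ℕ) : Prop where
  hab : a < b
  hbc : b < c
  hc : c ≤ M
  hD : Dt α β γ a b c ≠ 0
  h1 : Wd α β a b ≠ 0
  h2 : Wd α β a c ≠ 0
  h3 : Wd α β b c ≠ 0
  hq : ∀ q, q ≤ M → q ≠ a → q ≠ b → q ≠ c →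
    (0 ≤ Dt α β γ q a b * Wd α β a b ∧ 0 ≤ Dt α β γ q a c * Wd α β a c ∧
      0 ≤ Dt α β γ q b c * Wd α β b c) ∨
    (Dt α β γ q a b * Wd α β a b ≤ 0 ∧ Dt α β γ q a c * Wd α β a c ≤ 0 ∧
      Dt α β γ q b c * Wd α β b c ≤ 0)

open Classical in
/-- the vertices of the triangle of three lines -/
noncomputable def vs (α β γ : ℕ → ℝ) (t : ℕ × ℕ × ℕ) : Finset Plane :=
  {vx α β γ t.1 t.2.1, vx α β γ t.1 t.2.2, vx α β γ t.2.1 t.2.2}

lemma fn_nonneg {q a b : ℕ} (h : Wd α β a b ≠ 0) (h0 : Dt α β γ q a b * Wd α β a b ≤ 0) :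
    0 ≤ fn α β γ q (vx α β γ a b) := by
  rw [fn_vx h]
  exact div_nonneg (by linarith) (sq_nonneg _)

lemma fn_nonpos {q a b : ℕ} (h : Wd α β a b ≠ 0) (h0 : 0 ≤ Dt α β γ q a b * Wd α β a b) :
    fn α β γ q (vx α β γ a b) ≤ 0 := by
  rw [fn_vx h]
  exact div_nonpos_of_nonpos_of_nonneg (by linarith) (sq_nonneg _)

/-- the listed triangles are counted -/
lemma Tri.counted {M a b c : ℕ} (t : Tri α β γ M a b c)
    (hne : ∀ q, q ≤ M → α q ≠ 0 ∨ β q ≠ 0) {L : Set (Set Plane)}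
    (hL : ∀ ℓ, ℓ ∈ L ↔ ∃ q, q ≤ M ∧ ℓ = fl α β γ q) : Counted L (vs α β γ (a, b, c)) := by
  obtain ⟨hab, hbc, hc, hD, k1, k2, k3, hq⟩ := t
  have z1 := vx_mem1 (γ := γ) k1
  have z2 := vx_mem2 (γ := γ) k1
  have z3 := vx_mem1 (γ := γ) k2
  have z4 := vx_mem2 (γ := γ) k2
  have z5 := vx_mem1 (γ := γ) k3
  have z6 := vx_mem2 (γ := γ) k3
  refine ⟨vx α β γ a b, vx α β γ a c, vx α β γ b c, by simp [vs], affInd ?_,
    ⟨fl α β γ a, (hL _).mpr ⟨a, by omega, rfl⟩, z1, z3⟩,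
    ⟨fl α β γ c, (hL _).mpr ⟨c, by omega, rfl⟩, z4, z6⟩,
    ⟨fl α β γ b, (hL _).mpr ⟨b, by omega, rfl⟩, z2, z5⟩, ?_⟩
  · rw [D_vx k1 k2 k3]
    exact div_ne_zero (pow_ne_zero 2 hD) (mul_ne_zero (mul_ne_zero k1 k2) k3)
  · intro ℓ hℓ
    obtain ⟨q, hqM, rfl⟩ := (hL ℓ).mp hℓ
    apply fl_disj (hne q hqM)
    have mk : ∀ x y z : Plane, (0 ≤ fn α β γ q x ∧ 0 ≤ fn α β γ q y ∧ 0 ≤ fn α β γ q z) ∨
        (fn α β γ q x ≤ 0 ∧ fn α β γ q y ≤ 0 ∧ fn α β γ q z ≤ 0) →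
        (∀ w ∈ ({x, y, z} : Set Plane), 0 ≤ fn α β γ q w) ∨
        (∀ w ∈ ({x, y, z} : Set Plane), fn α β γ q w ≤ 0) := by
      rintro x y z (⟨u1, u2, u3⟩ | ⟨u1, u2, u3⟩)
      · left
        intro w hw
        rcases hw with rfl | rfl | rfl <;> assumption
      · right
        intro w hw
        rcases hw with rfl | rfl | rfl <;> assumption
    apply mk
    by_cases n1 : q = a
    · subst n1
      rw [mem_fl] at z1 z3
      rw [z1, z3]
      rcases le_total 0 (fn α β γ q (vx α β γ b c)) with h5 | h5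
      · exact Or.inl ⟨le_rfl, le_rfl, h5⟩
      · exact Or.inr ⟨le_rfl, le_rfl, h5⟩
    by_cases n2 : q = b
    · subst n2
      rw [mem_fl] at z2 z5
      rw [z2, z5]
      rcases le_total 0 (fn α β γ q (vx α β γ a c)) with h5 | h5
      · exact Or.inl ⟨le_rfl, h5, le_rfl⟩
      · exact Or.inr ⟨le_rfl, h5, le_rfl⟩
    by_cases n3 : q = c
    · subst n3
      rw [mem_fl] at z4 z6
      rw [z4, z6]
      rcases le_total 0 (fn α β γ q (vx α β γ a b)) with h5 | h5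
      · exact Or.inl ⟨h5, le_rfl, le_rfl⟩
      · exact Or.inr ⟨h5, le_rfl, le_rfl⟩
    rcases hq q hqM n1 n2 n3 with ⟨u1, u2, u3⟩ | ⟨u1, u2, u3⟩
    · exact Or.inr ⟨fn_nonpos k1 u1, fn_nonpos k2 u2, fn_nonpos k3 u3⟩
    · exact Or.inl ⟨fn_nonneg k1 u1, fn_nonneg k2 u2, fn_nonneg k3 u3⟩

/-- the lines with two vertices of a triangle -/
lemma Tri.two {M a b c q : ℕ} (t : Tri α β γ M a b c)
    (hW : ∀ i j, i < j → j ≤ M → Wd α β i j ≠ 0) (hqM : q ≤ M) :
    (∃ z ∈ vs α β γ (a, b, c), ∃ z' ∈ vs α β γ (a, b, c), z ≠ z' ∧ z ∈ fl α β γ q ∧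
      z' ∈ fl α β γ q) ↔ q = a ∨ q = b ∨ q = c := by
  obtain ⟨hab, hbc, hc, hD, k1, k2, k3, -⟩ := t
  have z1 := vx_mem1 (γ := γ) k1
  have z2 := vx_mem2 (γ := γ) k1
  have z3 := vx_mem1 (γ := γ) k2
  have z4 := vx_mem2 (γ := γ) k2
  have z5 := vx_mem1 (γ := γ) k3
  have z6 := vx_mem2 (γ := γ) k3
  have hW' : ∀ i j, i ≤ M → j ≤ M → i ≠ j → Wd α β i j ≠ 0 := by
    intro i j hi hj hij
    rcases lt_or_gt_of_ne hij with h | h
    · exact hW i j h hj
    · have h1 := hW j i h hi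
      have h2 : Wd α β i j = - Wd α β j i := by unfold Wd; ring
      rw [h2]; exact neg_ne_zero.mpr h1
  have hDD : D (vx α β γ a b) (vx α β γ a c) (vx α β γ b c) ≠ 0 := by
    rw [D_vx k1 k2 k3]
    exact div_ne_zero (pow_ne_zero 2 hD) (mul_ne_zero (mul_ne_zero k1 k2) k3)
  have n1 : vx α β γ a b ≠ vx α β γ a c := by
    intro h; apply hDD; rw [h]; unfold D; ring
  have n2 : vx α β γ a b ≠ vx α β γ b c := by
    intro h; apply hDD; rw [← h]; unfold D; ring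
  have n3 : vx α β γ a c ≠ vx α β γ b c := by
    intro h; apply hDD; rw [h]; unfold D; ring
  -- two different points on the line `i` and on the line `q`
  have key : ∀ i, i ≤ M → ∀ z z' : Plane, z ≠ z' → z ∈ fl α β γ i → z' ∈ fl α β γ i →
      z ∈ fl α β γ q → z' ∈ fl α β γ q → q = i := by
    intro i hi z z' hne g1 g2 g3 g4
    by_contra hcon
    exact hne (fl_unique (hW' q i hqM hi hcon) g3 g1 g4 g2)
  constructor
  · rintro ⟨z, hz, z', hz', hne, g1, g2⟩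
    simp only [vs, mem_insert, mem_singleton] at hz hz'
    rcases hz with rfl | rfl | rfl <;> rcases hz' with rfl | rfl | rfl
    · exact absurd rfl hne
    · exact Or.inl (key a (by omega) _ _ hne z1 z3 g1 g2)
    · exact Or.inr (Or.inl (key b (by omega) _ _ hne z2 z5 g1 g2))
    · exact Or.inl (key a (by omega) _ _ hne z3 z1 g1 g2)
    · exact absurd rfl hne
    · exact Or.inr (Or.inr (key c (by omega) _ _ hne z4 z6 g1 g2))
    · exact Or.inr (Or.inl (key b (by omega) _ _ hne z5 z2 g1 g2))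
    · exact Or.inr (Or.inr (key c (by omega) _ _ hne z6 z4 g1 g2))
    · exact absurd rfl hne
  · rintro (rfl | rfl | rfl)
    · exact ⟨_, by simp [vs], _, by simp [vs], n1, z1, z3⟩
    · exact ⟨_, by simp [vs], _, by simp [vs], n2, z2, z5⟩
    · exact ⟨_, by simp [vs], _, by simp [vs], n3, z4, z6⟩

lemma vs_inj {M : ℕ} (hW : ∀ i j, i < j → j ≤ M → Wd α β i j ≠ 0) {F : Finset (ℕ × ℕ × ℕ)}
    (hF : ∀ t ∈ F, Tri α β γ M t.1 t.2.1 t.2.2) :
    Set.InjOn (vs α β γ) (F : Set (ℕ × ℕ × ℕ)) := by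
  rintro ⟨a, b, c⟩ hx ⟨a', b', c'⟩ hy hxy
  have t1 : Tri α β γ M a b c := hF _ (Finset.mem_coe.mp hx)
  have t2 : Tri α β γ M a' b' c' := hF _ (Finset.mem_coe.mp hy)
  have l1 := t1.hab
  have l2 := t1.hbc
  have l3 := t1.hc
  have l4 := t2.hab
  have l5 := t2.hbc
  have l6 := t2.hc
  have e1 := (t1.two hW (by omega : a' ≤ M)).mp (by
    rw [hxy]; exact (t2.two hW (by omega)).mpr (Or.inl rfl))
  have e2 := (t1.two hW (by omega : b' ≤ M)).mp (by
    rw [hxy]; exact (t2.two hW (by omega)).mpr (Or.inr (Or.inl rfl)))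
  have e3 := (t1.two hW (by omega : c' ≤ M)).mp (by
    rw [hxy]; exact (t2.two hW (by omega)).mpr (Or.inr (Or.inr rfl)))
  have : a = a' ∧ b = b' ∧ c = c' := by omega
  rw [this.1, this.2.1, this.2.2]

end Pool.Agent.Helper30.KP
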