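import Pool.Agent.Helper30.KP.Real
import Pool.Agent.Helper30.KP.Geo
import Pool.Agent.Helper30.KP.Count

/-!
# The arrangements with `3 * 2 ^ k + 2` lines
-/

namespace Pool.Agent.Helper30.KP

open Finset Pool.Agent.Helper30.KO

/-- coefficients of the lines -/
def ca (k : ℕ) (K : ℕ → ℝ) (H : ℝ) (q : ℕ) : ℝ := if q = tp k + 1 then 1 else K q - H

/-- coefficients of the lines -/
def cb (k : ℕ) (m : ℕ → ℝ) (s : ℝ) (q : ℕ) : ℝ := if q = tp k + 1 then 0 else m q - s

/-- coefficients of the lines -/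
def cg (k : ℕ) (q : ℕ) : ℝ := if q = tp k + 1 then 0 else 1

variable {k : ℕ} {m K : ℕ → ℝ} {s H : ℝ}

lemma ca_of_le {q : ℕ} (hq : q ≤ tp k) : ca k K H q = K q - H := by
  unfold ca; rw [if_neg (by omega)]

lemma cb_of_le {q : ℕ} (hq : q ≤ tp k) : cb k m s q = m q - s := by
  unfold cb; rw [if_neg (by omega)]

lemma cg_of_le {q : ℕ} (hq : q ≤ tp k) : cg k q = 1 := by
  unfold cg; rw [if_neg (by omega)]

lemma ca_top : ca k K H (tp k + 1) = 1 := by simp [ca]

lemma cb_top : cb k m s (tp k + 1) = 0 := by simp [cb]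

lemma cg_top : cg k (tp k + 1) = 0 := by simp [cg]

lemma Dt_eq {i j l : ℕ} (hi : i ≤ tp k) (hj : j ≤ tp k) (hl : l ≤ tp k) :
    Dt (ca k K H) (cb k m s) (cg k) i j l = G m K i j l := by
  unfold Dt G
  rw [ca_of_le hi, ca_of_le hj, ca_of_le hl, cb_of_le hi, cb_of_le hj, cb_of_le hl,
    cg_of_le hi, cg_of_le hj, cg_of_le hl]
  ring

lemma Wd_eq {i j : ℕ} (hi : i ≤ tp k) (hj : j ≤ tp k) :
    Wd (ca k K H) (cb k m s) i j = W m K s H i j := by
  unfold Wd W
  rw [ca_of_le hi, ca_of_le hj, cb_of_le hi, cb_of_le hj]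
  ring

lemma Dt_top1 {i j : ℕ} (hi : i ≤ tp k) (hj : j ≤ tp k) :
    Dt (ca k K H) (cb k m s) (cg k) (tp k + 1) i j = m i - m j := by
  unfold Dt
  rw [ca_of_le hi, ca_of_le hj, cb_of_le hi, cb_of_le hj, cg_of_le hi, cg_of_le hj, ca_top,
    cb_top, cg_top]
  ring

lemma Dt_top3 {i j : ℕ} (hi : i ≤ tp k) (hj : j ≤ tp k) :
    Dt (ca k K H) (cb k m s) (cg k) i j (tp k + 1) = m i - m j := by
  unfold Dt
  rw [ca_of_le hi, ca_of_le hj, cb_of_le hi, cb_of_le hj, cg_of_le hi, cg_of_le hj, ca_top,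
    cb_top, cg_top]
  ring

lemma Wd_top {i : ℕ} (hi : i ≤ tp k) :
    Wd (ca k K H) (cb k m s) i (tp k + 1) = -(m i - s) := by
  unfold Wd
  rw [ca_of_le hi, cb_of_le hi, ca_top, cb_top]
  ring

lemma G_swap1 (a q b : ℕ) : G m K q a b = - G m K a q b := by
  unfold G; ring

lemma G_swap2 (a b q : ℕ) : G m K q a b = G m K a b q := by
  unfold G; ring

/-- three or two numbers with a common sign -/
def Same (x y z : ℝ) : Prop := (0 ≤ x ∧ 0 ≤ y ∧ 0 ≤ z) ∨ (x ≤ 0 ∧ y ≤ 0 ∧ z ≤ 0)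

/-- the criterion for bounded triangles -/
lemma Rz.fin_tri (h : Rz k m K s H) {a b c : ℕ} (hab : a < b) (hbc : b < c) (hc : c ≤ tp k)
    (hG : G m K a b c ≠ 0)
    (hW : (0 < W m K s H a b ∧ 0 < W m K s H a c ∧ 0 < W m K s H b c) ∨
      (W m K s H a b < 0 ∧ W m K s H a c < 0 ∧ W m K s H b c < 0))
    (hq : ∀ q, q ≤ tp k → q ≠ a → q ≠ b → q ≠ c →
      Same (G m K q a b) (G m K q a c) (G m K q b c)) :
    Tri (ca k K H) (cb k m s) (cg k) (tp k + 1) a b c := by
  have ha' : a ≤ tp k := by omega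
  have hb' : b ≤ tp k := by omega
  have w1 := Wd_eq (K := K) (m := m) (s := s) (H := H) ha' hb'
  have w2 := Wd_eq (K := K) (m := m) (s := s) (H := H) ha' hc
  have w3 := Wd_eq (K := K) (m := m) (s := s) (H := H) hb' hc
  have m1 := h.mono a b hab hb'
  have m2 := h.mono b c hbc hc
  refine ⟨hab, hbc, by omega, by rw [Dt_eq ha' hb' hc]; exact hG, ?_, ?_, ?_, ?_⟩
  · rw [w1]; rcases hW with h | h
    · exact h.1.ne'
    · exact h.1.ne
  · rw [w2]; rcases hW with h | h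
    · exact h.2.1.ne'
    · exact h.2.1.ne
  · rw [w3]; rcases hW with h | h
    · exact h.2.2.ne'
    · exact h.2.2.ne
  · intro q hqM n1 n2 n3
    rw [w1, w2, w3]
    rcases Nat.lt_or_ge (tp k) q with hqt | hqt
    · have : q = tp k + 1 := by omega
      subst this
      rw [Dt_top1 ha' hb', Dt_top1 ha' hc, Dt_top1 hb' hc]
      rcases hW with ⟨u1, u2, u3⟩ | ⟨u1, u2, u3⟩
      · exact Or.inr ⟨mul_nonpos_of_nonpos_of_nonneg (by linarith) u1.le,
          mul_nonpos_of_nonpos_of_nonneg (by linarith) u2.le,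
          mul_nonpos_of_nonpos_of_nonneg (by linarith) u3.le⟩
      · exact Or.inl ⟨mul_nonneg_of_nonpos_of_nonpos (by linarith) u1.le,
          mul_nonneg_of_nonpos_of_nonpos (by linarith) u2.le,
          mul_nonneg_of_nonpos_of_nonpos (by linarith) u3.le⟩
    · rw [Dt_eq hqt ha' hb', Dt_eq hqt ha' hc, Dt_eq hqt hb' hc]
      rcases hW with ⟨u1, u2, u3⟩ | ⟨u1, u2, u3⟩ <;>
        rcases hq q hqt n1 n2 n3 with ⟨v1, v2, v3⟩ | ⟨v1, v2, v3⟩
      · exact Or.inl ⟨mul_nonneg v1 u1.le, mul_nonneg v2 u2.le, mul_nonneg v3 u3.le⟩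
      · exact Or.inr ⟨mul_nonpos_of_nonpos_of_nonneg v1 u1.le,
          mul_nonpos_of_nonpos_of_nonneg v2 u2.le, mul_nonpos_of_nonpos_of_nonneg v3 u3.le⟩
      · exact Or.inr ⟨mul_nonpos_of_nonneg_of_nonpos v1 u1.le,
          mul_nonpos_of_nonneg_of_nonpos v2 u2.le, mul_nonpos_of_nonneg_of_nonpos v3 u3.le⟩
      · exact Or.inl ⟨mul_nonneg_of_nonpos_of_nonpos v1 u1.le,
          mul_nonneg_of_nonpos_of_nonpos v2 u2.le, mul_nonneg_of_nonpos_of_nonpos v3 u3.le⟩

lemma Rz.g1 (h : Rz k m K s H) {q x y : ℕ} (h1 : q < x) (h2 : x < y) (h3 : y ≤ tp k)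
    (hg : Gs k q x y) :
    (Xr k q x y → 0 < G m K q x y) ∧ (¬ Xr k q x y → G m K q x y < 0) :=
  h.sgn q x y h1 h2 h3 hg

lemma Rz.g2 (h : Rz k m K s H) {q x y : ℕ} (h1 : x < q) (h2 : q < y) (h3 : y ≤ tp k)
    (hg : Gs k q x y) :
    (¬ Xr k x q y → 0 < G m K q x y) ∧ (Xr k x q y → G m K q x y < 0) := by
  have hg' : Gs k x q y := by unfold Gs at *; omega
  have hs := h.sgn x q y h1 h2 h3 hg'
  rw [G_swap1]
  exact ⟨fun hx => neg_pos.mpr (hs.2 hx), fun hx => neg_neg_of_pos (hs.1 hx)⟩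

lemma Rz.g3 (h : Rz k m K s H) {q x y : ℕ} (h1 : x < y) (h2 : y < q) (h3 : q ≤ tp k)
    (hg : Gs k q x y) :
    (Xr k x y q → 0 < G m K q x y) ∧ (¬ Xr k x y q → G m K q x y < 0) := by
  have hg' : Gs k x y q := by unfold Gs at *; omega
  have hs := h.sgn x y q h1 h2 h3 hg'
  rw [G_swap2]
  exact hs

/-- no vertex is separated by another line -/
lemma Rz.noSep (h : Rz k m K s H) {a b c q : ℕ} (hab : a < b) (hbc : b < c) (hc : c ≤ tp k)
    (hq : q ≤ tp k) (n1 : q ≠ a) (n2 : q ≠ b) (n3 : q ≠ c) (hN : NS k a b c q)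
    (k1 : Gs k q a b) (k2 : Gs k q a c) (k3 : Gs k q b c) :
    Same (G m K q a b) (G m K q a c) (G m K q b c) := by
  obtain ⟨N1, N2, N3, N4⟩ := hN
  have hac := hab.trans hbc
  rcases lt_or_gt_of_ne n1 with h1 | h1
  · have s1 := h.g1 h1 hab (by omega) k1
    have s2 := h.g1 h1 hac (by omega) k2
    have s3 := h.g1 (h1.trans hab) hbc hc k3
    have e := N1 h1
    by_cases hx : Xr k q a c
    · exact Or.inl ⟨(s1.1 (e.1.mpr hx)).le, (s2.1 hx).le, (s3.1 (e.2.mp hx)).le⟩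
    · exact Or.inr ⟨(s1.2 (fun g => hx (e.1.mp g))).le, (s2.2 hx).le,
        (s3.2 (fun g => hx (e.2.mpr g))).le⟩
  rcases lt_or_gt_of_ne n2 with h2 | h2
  · have s1 := h.g2 h1 h2 (by omega) k1
    have s2 := h.g2 h1 (h2.trans hbc) hc k2
    have s3 := h.g1 h2 hbc hc k3
    have e := N2 h1 h2
    by_cases hx : Xr k a q c
    · exact Or.inr ⟨(s1.2 (e.1.mpr hx)).le, (s2.2 hx).le, (s3.2 (e.2.mp hx)).le⟩
    · exact Or.inl ⟨(s1.1 (fun g => hx (e.1.mp g))).le, (s2.1 hx).le,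
        (s3.1 (by_contra (fun g => hx (e.2.mpr g)))).le⟩
  rcases lt_or_gt_of_ne n3 with h3 | h3
  · have s1 := h.g3 hab h2 hq k1
    have s2 := h.g2 h1 h3 hc k2
    have s3 := h.g2 h2 h3 hc k3
    have e := N3 h2 h3
    by_cases hx : Xr k a q c
    · exact Or.inr ⟨(s1.2 (fun g => (e.1.mp g) hx)).le, (s2.2 hx).le, (s3.2 (e.2.mp hx)).le⟩
    · exact Or.inl ⟨(s1.1 (e.1.mpr hx)).le, (s2.1 hx).le, (s3.1 (fun g => hx (e.2.mpr g))).le⟩
  · have s1 := h.g3 hab h2 hq k1
    have s2 := h.g3 hac h3 hq k2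
    have s3 := h.g3 hbc h3 hq k3
    have e := N4 h3
    by_cases hx : Xr k a c q
    · exact Or.inl ⟨(s1.1 (e.1.mpr hx)).le, (s2.1 hx).le, (s3.1 (e.2.mp hx)).le⟩
    · exact Or.inr ⟨(s1.2 (fun g => hx (e.1.mp g))).le, (s2.2 hx).le,
        (s3.2 (fun g => hx (e.2.mpr g))).le⟩

/-- the triangles of the rule -/
lemma Rz.rule_tri (h : Rz k m K s H) {a b c : ℕ} (hT : IsTri k a b c) (hW : IsW k a b c) :
    Tri (ca k K H) (cb k m s) (cg k) (tp k + 1) a b c := by
  obtain ⟨hab, hbc, hc, hg, hq⟩ := hT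
  obtain ⟨w1, w2, w3, y1, y2⟩ := hW
  have hac := hab.trans hbc
  apply h.fin_tri hab hbc hc
  · have := h.sgn a b c hab hbc hc hg
    by_cases hx : Xr k a b c
    · exact (this.1 hx).ne'
    · exact (this.2 hx).ne
  · have e1 := h.wsgn a b hab (by omega) w1
    have e2 := h.wsgn a c hac hc w2
    have e3 := h.wsgn b c hbc hc w3
    by_cases hy : Yr k a c
    · exact Or.inl ⟨e1.1 (y1.mpr hy), e2.1 hy, e3.1 (y2.mp hy)⟩
    · exact Or.inr ⟨e1.2 (fun g => hy (y1.mp g)), e2.2 hy, e3.2 (fun g => hy (y2.mpr g))⟩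
  · intro q hqt n1 n2 n3
    obtain ⟨f1, f2, f3, f4⟩ := hq q hqt n1 n2 n3
    exact h.noSep hab hbc hc hqt n1 n2 n3 f1 f2 f3 f4

/-- the wedges closed by the old line at infinity -/
lemma Rz.wedge (h : Rz k m K s H) (hk : 1 ≤ k) {i : ℕ} (hi : i < tp k) :
    Tri (ca k K H) (cb k m s) (cg k) (tp k + 1) i (i + 1) (tp k + 1) := by
  have hi1 : i + 1 ≤ tp k := hi
  have hev : ∀ x, Even x → 1 ≤ lv k x := by
    intro x hx
    rw [le_lv_iff (by omega), pow_one]
    exact hx.two_dvd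
  have hod : ∀ x, ¬ Even x → lv k x = 0 := by
    intro x hx
    by_contra h0
    apply hx
    have : 1 ≤ lv k x := by omega
    rw [le_lv_iff (by omega), pow_one] at this
    exact even_iff_two_dvd.mpr this
  have htp : Even (tp k) := by
    rw [tp_eq, pow_succ]
    exact ⟨3 * 2 ^ k, by ring⟩
  have m1 := h.mono i (i + 1) (by omega) hi1
  have l1 := h.low i hi.le
  have l2 := h.low (i + 1) hi1
  have d3 : Wd (ca k K H) (cb k m s) i (tp k + 1) = -(m i - s) := Wd_top hi.le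
  have d4 : Wd (ca k K H) (cb k m s) (i + 1) (tp k + 1) = -(m (i + 1) - s) := Wd_top hi1
  have d5 : Wd (ca k K H) (cb k m s) i (i + 1) = W m K s H i (i + 1) := Wd_eq hi.le hi1
  have hws : Ws k i (i + 1) := by
    rcases Nat.even_or_odd i with he | ho
    · have : lv k (i + 1) = 0 := hod _ (by
        rw [Nat.even_add_one]; exact fun g => g he)
      exact Or.inr (Or.inl (by omega))
    · have : lv k i = 0 := hod _ (Nat.not_even_iff_odd.mpr ho)
      exact Or.inl (by omega)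
  have hw := h.wsgn i (i + 1) (by omega) hi1 hws
  refine ⟨by omega, by omega, le_rfl, ?_, ?_, ?_, ?_, ?_⟩
  · rw [Dt_top3 hi.le hi1]
    exact (sub_neg.mpr m1).ne
  · rw [d5]
    by_cases hy : Yr k i (i + 1)
    · exact (hw.1 hy).ne'
    · exact (hw.2 hy).ne
  · rw [d3]; exact neg_ne_zero.mpr (sub_pos.mpr l1).ne'
  · rw [d4]; exact neg_ne_zero.mpr (sub_pos.mpr l2).ne'
  · intro q hqM n1 n2 n3
    have hqt : q ≤ tp k := by omega
    rw [d5, d3, d4, Dt_top3 hqt hi.le, Dt_top3 hqt hi1, Dt_eq hqt hi.le hi1]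
    have hgs : Gs k q i (i + 1) := by
      unfold Ws at hws
      unfold Gs
      omega
    rcases Nat.even_or_odd i with he | ho
    · have o1 : lv k (i + 1) = 0 := hod _ (by
        rw [Nat.even_add_one]; exact fun g => g he)
      have o2 := hev i he
      have hy : ¬ Yr k i (i + 1) := by unfold Yr; omega
      have hW := hw.2 hy
      rcases lt_or_gt_of_ne n1 with h1 | h1
      · have hx : ¬ Xr k q i (i + 1) := by unfold Xr; omega
        have hG := (h.g1 h1 (by omega) hi1 hgs).2 hx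
        have m2 := h.mono q i h1 hi.le
        left
        exact ⟨mul_nonneg_of_nonpos_of_nonpos hG.le hW.le,
          mul_nonneg_of_nonpos_of_nonpos (by linarith) (by linarith),
          mul_nonneg_of_nonpos_of_nonpos (by linarith) (by linarith)⟩
      · have h1' : i + 1 < q := by omega
        have hx : Xr k i (i + 1) q := by
          rcases Nat.even_or_odd q with hqe | hqo
          · have := hev q hqe
            exact Or.inl ⟨by omega, by omega⟩
          · have := hod q (Nat.not_even_iff_odd.mpr hqo)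
            have : q ≠ tp k := by rintro rfl; exact (Nat.not_even_iff_odd.mpr hqo) htp
            exact Or.inr (Or.inr ⟨by omega, by omega, by omega⟩)
        have hG := (h.g3 (by omega) h1' hqt hgs).1 hx
        have m2 := h.mono (i + 1) q h1' hqt
        right
        exact ⟨mul_nonpos_of_nonneg_of_nonpos hG.le hW.le,
          mul_nonpos_of_nonneg_of_nonpos (by linarith) (by linarith),
          mul_nonpos_of_nonneg_of_nonpos (by linarith) (by linarith)⟩
    · have o1 : lv k i = 0 := hod _ (Nat.not_even_iff_odd.mpr ho)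
      have o2 := hev (i + 1) (by rw [Nat.even_add_one]; exact Nat.not_even_iff_odd.mpr ho)
      have hy : Yr k i (i + 1) := by unfold Yr; omega
      have hW := hw.1 hy
      rcases lt_or_gt_of_ne n1 with h1 | h1
      · have hx : Xr k q i (i + 1) := by
          rcases Nat.even_or_odd q with hqe | hqo
          · have := hev q hqe
            exact Or.inl ⟨by omega, by omega⟩
          · have := hod q (Nat.not_even_iff_odd.mpr hqo)
            have : 0 < q := hqo.pos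
            exact Or.inr (Or.inl ⟨by omega, by omega, by omega⟩)
        have hG := (h.g1 h1 (by omega) hi1 hgs).1 hx
        have m2 := h.mono q i h1 hi.le
        left
        exact ⟨mul_nonneg hG.le hW.le,
          mul_nonneg_of_nonpos_of_nonpos (by linarith) (by linarith),
          mul_nonneg_of_nonpos_of_nonpos (by linarith) (by linarith)⟩
      · have h1' : i + 1 < q := by omega
        have hx : ¬ Xr k i (i + 1) q := by unfold Xr; omega
        have hG := (h.g3 (by omega) h1' hqt hgs).2 hx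
        have m2 := h.mono (i + 1) q h1' hqt
        right
        exact ⟨mul_nonpos_of_nonpos_of_nonneg hG.le hW.le,
          mul_nonpos_of_nonneg_of_nonpos (by linarith) (by linarith),
          mul_nonpos_of_nonneg_of_nonpos (by linarith) (by linarith)⟩

/-- the signs of the triples of base lines in any order -/
def ub (q a b : ℕ) : ℤ := if q < a then bt q a b else if q < b then - bt a q b else bt a b q

lemma Sg.negate {t : ℤ} {x : ℝ} (h : Sg t x) : Sg (-t) (-x) :=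
  ⟨fun h' => by have := h.2.2 (by omega); linarith,
    fun h' => by have := h.2.1 (by omega); linarith,
    fun h' => by have := h.1 (by omega); linarith⟩

lemma Rz.ubs (h : Rz k m K s H) {q a b : ℕ} (hab : a < b) (hb : b ≤ 6) (hq : q ≤ 6) (n1 : q ≠ a)
    (n2 : q ≠ b) : Sg (ub q a b) (G m K (q * 2 ^ k) (a * 2 ^ k) (b * 2 ^ k)) := by
  unfold ub
  split_ifs with h1 h2
  · exact h.bs q a b h1 hab hb
  · rw [G_swap1]
    exact (h.bs a q b (by omega) h2 hb).negate
  · rw [G_swap2]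
    exact h.bs a b q hab (by omega) hq

/-- nonnegative and nonpositive signs -/
def NN (t : ℤ) : Prop := t = 0 ∨ t = 1

/-- nonpositive signs -/
def NP (t : ℤ) : Prop := t = 0 ∨ t = -1

instance (t : ℤ) : Decidable (NN t) := by unfold NN; infer_instance

instance (t : ℤ) : Decidable (NP t) := by unfold NP; infer_instance

lemma Sg.nn {t : ℤ} {x : ℝ} (h : Sg t x) (ht : NN t) : 0 ≤ x := by
  rcases ht with h1 | h1
  · exact (h.2.1 h1).ge
  · exact (h.1 h1).le

lemma Sg.np {t : ℤ} {x : ℝ} (h : Sg t x) (ht : NP t) : x ≤ 0 := by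
  rcases ht with h1 | h1
  · exact (h.2.1 h1).le
  · exact (h.2.2 h1).le

lemma table_B : ∀ t ∈ bl, t.1 < t.2.1 ∧ t.2.1 < t.2.2 ∧ t.2.2 ≤ 6 ∧
    (bt t.1 t.2.1 t.2.2 = 1 ∨ bt t.1 t.2.1 t.2.2 = -1) ∧
    (bw t.1 t.2.1 = -1 ∧ bw t.1 t.2.2 = -1 ∧ bw t.2.1 t.2.2 = -1) ∧
    ∀ q ∈ range 7, q ≠ t.1 → q ≠ t.2.1 → q ≠ t.2.2 →
      (NN (ub q t.1 t.2.1) ∧ NN (ub q t.1 t.2.2) ∧ NN (ub q t.2.1 t.2.2)) ∨
      (NP (ub q t.1 t.2.1) ∧ NP (ub q t.1 t.2.2) ∧ NP (ub q t.2.1 t.2.2)) := by decide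

/-- a line which is not a base line does not separate crossings of base lines -/
lemma Rz.young (h : Rz k m K s H) {q a b : ℕ} (hab : a < b) (hb : b ≤ tp k) (hq : q ≤ tp k)
    (ha : k ≤ lv k a) (hb' : k ≤ lv k b) (hq' : lv k q < k) : G m K q a b < 0 := by
  have hg : Gs k q a b := Or.inl hq'
  have n1 : q ≠ a := by rintro rfl; omega
  have n2 : q ≠ b := by rintro rfl; omega
  rcases lt_or_gt_of_ne n1 with h1 | h1
  · apply (h.g1 h1 hab hb hg).2
    unfold Xr; omega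
  rcases lt_or_gt_of_ne n2 with h2 | h2
  · apply (h.g2 h1 h2 hb hg).2
    unfold Xr; omega
  · apply (h.g3 hab h2 hq hg).2
    unfold Xr; omega

/-- the base triangles -/
lemma Rz.base_tri (h : Rz k m K s H) {t : ℕ × ℕ × ℕ} (ht : t ∈ bl) :
    Tri (ca k K H) (cb k m s) (cg k) (tp k + 1) (t.1 * 2 ^ k) (t.2.1 * 2 ^ k) (t.2.2 * 2 ^ k) := by
  obtain ⟨h1, h2, h3, h4, ⟨h5, h6, h7⟩, h8⟩ := table_B t ht
  have hp : 0 < 2 ^ k := by positivity
  have hlv : ∀ j, k ≤ lv k (j * 2 ^ k) := by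
    intro j
    rw [le_lv_iff (by omega)]
    exact Dvd.intro_left _ rfl
  have htp : ∀ j, j ≤ 6 → j * 2 ^ k ≤ tp k := fun j hj => Nat.mul_le_mul_right _ hj
  have hlt : ∀ i j, i < j → i * 2 ^ k < j * 2 ^ k := fun i j hij =>
    Nat.mul_lt_mul_of_pos_right hij hp
  apply h.fin_tri (hlt _ _ h1) (hlt _ _ h2) (htp _ h3)
  · have := h.bs t.1 t.2.1 t.2.2 h1 h2 h3
    rcases h4 with g | g
    · exact (this.1 g).ne'
    · exact (this.2.2 g).ne
  · right
    exact ⟨(h.bws t.1 t.2.1 h1 (by omega)).2.2 h5, (h.bws t.1 t.2.2 (by omega) h3).2.2 h6,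
      (h.bws t.2.1 t.2.2 h2 h3).2.2 h7⟩
  · intro q hq n1 n2 n3
    by_cases hb : lv k q < k
    · right
      exact ⟨(h.young (hlt _ _ h1) (htp _ (by omega)) hq (hlv _) (hlv _) hb).le,
        (h.young (hlt _ _ (h1.trans h2)) (htp _ h3) hq (hlv _) (hlv _) hb).le,
        (h.young (hlt _ _ h2) (htp _ h3) hq (hlv _) (hlv _) hb).le⟩
    · obtain ⟨j, hj, rfl⟩ := base_of_lv hb hq
      have e1 : j ≠ t.1 := by rintro rfl; exact n1 rfl
      have e2 : j ≠ t.2.1 := by rintro rfl; exact n2 rfl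
      have e3 : j ≠ t.2.2 := by rintro rfl; exact n3 rfl
      have s1 := h.ubs h1 (by omega) hj e1 e2
      have s2 := h.ubs (h1.trans h2) h3 hj e1 e3
      have s3 := h.ubs h2 h3 hj e2 e3
      rcases h8 j (by rw [mem_range]; omega) e1 e2 e3 with ⟨g1, g2, g3⟩ | ⟨g1, g2, g3⟩
      · exact Or.inl ⟨s1.nn g1, s2.nn g2, s3.nn g3⟩
      · exact Or.inr ⟨s1.np g1, s2.np g2, s3.np g3⟩

/-- all listed triangles -/
lemma Rz.fam_tri (h : Rz k m K s H) (hk : 1 ≤ k) : ∀ t ∈ fam k,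
    Tri (ca k K H) (cb k m s) (cg k) (tp k + 1) t.1 t.2.1 t.2.2 := by
  intro t ht
  rcases Finset.mem_union.mp ht with ht | ht
  · rcases Finset.mem_union.mp ht with ht | ht
    · obtain ⟨x, hx, rfl⟩ := Finset.mem_image.mp ht
      obtain ⟨h1, -, -⟩ := tr_spec hx
      exact h.rule_tri h1.1 h1.2
    · obtain ⟨x, hx, rfl⟩ := Finset.mem_image.mp ht
      exact h.base_tri hx
  · obtain ⟨i, hi, rfl⟩ := Finset.mem_image.mp ht
    exact h.wedge hk (Finset.mem_range.mp hi)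

/-- there are no parallel lines -/
lemma Rz.Wd_ne (h : Rz k m K s H) : ∀ i j, i < j → j ≤ tp k + 1 →
    Wd (ca k K H) (cb k m s) i j ≠ 0 := by
  intro i j hij hj
  rcases Nat.lt_or_ge (tp k) j with hjt | hjt
  · have : j = tp k + 1 := by omega
    subst this
    rw [Wd_top (by omega)]
    exact neg_ne_zero.mpr (sub_pos.mpr (h.low i (by omega))).ne'
  · rw [Wd_eq (by omega) hjt]
    by_cases hlow : lv k i < k ∨ lv k j < k
    · have hws : Ws k i j := by
        rcases hlow with g | g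
        · exact Or.inl g
        · exact Or.inr (Or.inl g)
      have := h.wsgn i j hij hjt hws
      by_cases hy : Yr k i j
      · exact (this.1 hy).ne'
      · exact (this.2 hy).ne
    · push Not at hlow
      obtain ⟨i', hi', rfl⟩ := base_of_lv (not_lt.mpr hlow.1) (by omega)
      obtain ⟨j', hj', rfl⟩ := base_of_lv (not_lt.mpr hlow.2) hjt
      have hij' : i' < j' := Nat.lt_of_mul_lt_mul_right hij
      have := h.bws i' j' hij' hj'
      have hbw : bw i' j' = 1 ∨ bw i' j' = -1 := by unfold bw; split_ifs <;> simp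
      rcases hbw with g | g
      · exact (this.1 g).ne'
      · exact (this.2.2 g).ne

lemma Rz.co_ne (h : Rz k m K s H) : ∀ q, q ≤ tp k + 1 → ca k K H q ≠ 0 ∨ cb k m s q ≠ 0 := by
  intro q hq
  rcases Nat.lt_or_ge (tp k) q with hqt | hqt
  · have : q = tp k + 1 := by omega
    subst this
    left; rw [ca_top]; exact one_ne_zero
  · right
    rw [cb_of_le hqt]
    exact (sub_pos.mpr (h.low q hqt)).ne'

/-- nonparallel lines are different -/
lemma fl_ne {α β γ : ℕ → ℝ} {i j : ℕ} (hi : α i ≠ 0 ∨ β i ≠ 0) (h : Wd α β i j ≠ 0) :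
    fl α β γ i ≠ fl α β γ j := by
  intro he
  have hpos : 0 < α i ^ 2 + β i ^ 2 := by
    rcases hi with h | h <;> positivity
  have h1 : (!₂[γ i * α i / (α i ^ 2 + β i ^ 2), γ i * β i / (α i ^ 2 + β i ^ 2)] : Plane) ∈
      fl α β γ i := by
    simp [fl]
    field_simp
  have h2 : (!₂[γ i * α i / (α i ^ 2 + β i ^ 2) - β i, γ i * β i / (α i ^ 2 + β i ^ 2) + α i] :
      Plane) ∈ fl α β γ i := by
    simp [fl]
    field_simp
    ring
  have h3 := fl_unique h h1 (he ▸ h1) h2 (he ▸ h2)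
  have e0 := congrArg (fun z : Plane => z 0) h3
  have e1 := congrArg (fun z : Plane => z 1) h3
  simp at e0 e1
  rcases hi with h | h
  · exact h e1
  · exact h (by linarith)

/-- the arrangement -/
theorem exists_arr (k : ℕ) (hk : 1 ≤ k) :
    ∃ L : Finset (Set Plane), L.card = 6 * 2 ^ k + 2 ∧ (∀ ℓ ∈ L, IsLine ℓ) ∧
      ∃ 𝒯 : Finset (Finset Plane), (∀ V ∈ 𝒯, Counted L V) ∧ 𝒯.card = 12 * 4 ^ k + 3 * 2 ^ k := by
  classical
  obtain ⟨m, K, s, H, h⟩ := exists_real k
  refine ⟨(range (tp k + 2)).image (fl (ca k K H) (cb k m s) (cg k)), ?_, ?_,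
    (fam k).image (vs (ca k K H) (cb k m s) (cg k)), ?_, ?_⟩
  · rw [Finset.card_image_of_injOn, card_range]
    · rfl
    intro x hx y hy hxy
    have hx' := Finset.mem_range.mp (Finset.mem_coe.mp hx)
    have hy' := Finset.mem_range.mp (Finset.mem_coe.mp hy)
    by_contra hne
    rcases lt_or_gt_of_ne hne with g | g
    · exact fl_ne (h.co_ne x (by omega)) (h.Wd_ne x y g (by omega)) hxy
    · exact fl_ne (h.co_ne y (by omega)) (h.Wd_ne y x g (by omega)) hxy.symm
  · intro ℓ hℓ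
    obtain ⟨q, hq, rfl⟩ := Finset.mem_image.mp hℓ
    exact fl_isLine (h.co_ne q (by have := Finset.mem_range.mp hq; omega))
  · intro V hV
    obtain ⟨⟨a, b, c⟩, ht, rfl⟩ := Finset.mem_image.mp hV
    apply (h.fam_tri hk _ ht).counted h.co_ne
    intro ℓ
    rw [Finset.mem_coe, Finset.mem_image]
    constructor
    · rintro ⟨q, hq, rfl⟩
      exact ⟨q, by have := Finset.mem_range.mp hq; omega, rfl⟩
    · rintro ⟨q, hq, rfl⟩
      exact ⟨q, by rw [Finset.mem_range]; omega, rfl⟩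
  · rw [Finset.card_image_of_injOn (vs_inj h.Wd_ne (h.fam_tri hk)), card_fam]

end Pool.Agent.Helper30.KP
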