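import Mathlib

/-!
# The base lines
-/

namespace Pool.Agent.Helper30.KP

/-- the scaled slopes of the base lines, the line `0` is the added one -/
def mu (p q : ℝ) (j : ℕ) : ℝ :=
  if j = 0 then -p else if j = 1 then -3 else if j = 2 then -1 else if j = 3 then 0
  else if j = 4 then 1 else if j = 5 then 3 else q

/-- the scaled intercepts of the base lines -/
def kb (p e f : ℝ) (j : ℕ) : ℝ :=
  if j = 0 then -p else if j = 1 then 0 else if j = 2 then e else if j = 3 then 1
  else if j = 4 then 0 else if j = 5 then f else 2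

/-- the signs of the triples of base lines -/
def bt (i j l : ℕ) : ℤ :=
  if 49 * i + 7 * j + l ∈ [9, 10, 11, 12, 13, 20, 25, 27, 34, 41, 74, 76, 90, 123, 124, 125, 132,
    139, 188, 237] then 1
  else if 49 * i + 7 * j + l ∈ [18, 26] then 0 else -1

/-- the signs of the pairs of base lines -/
def bw (i j : ℕ) : ℤ := if 7 * i + j ∈ [9, 25, 41] then 1 else -1

/-- `x` has the sign `t` -/
def Sg (t : ℤ) (x : ℝ) : Prop := (t = 1 → 0 < x) ∧ (t = 0 → x = 0) ∧ (t = -1 → x < 0)

lemma Sg.pos {t : ℤ} {x : ℝ} (ht : t = 1) (h : 0 < x) : Sg t x :=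
  ⟨fun _ => h, fun h' => by omega, fun h' => by omega⟩

lemma Sg.neg {t : ℤ} {x : ℝ} (ht : t = -1) (h : x < 0) : Sg t x :=
  ⟨fun h' => by omega, fun h' => by omega, fun _ => h⟩

lemma Sg.zero {t : ℤ} {x : ℝ} (ht : t = 0) (h : x = 0) : Sg t x :=
  ⟨fun h' => by omega, fun _ => h, fun h' => by omega⟩

lemma Sg.mul {t : ℤ} {x c : ℝ} (hc : 0 < c) (h : Sg t x) : Sg t (c * x) :=
  ⟨fun h' => mul_pos hc (h.1 h'), fun h' => by rw [h.2.1 h', mul_zero],
    fun h' => mul_neg_of_pos_of_neg hc (h.2.2 h')⟩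

lemma base_sgn {p q e f : ℝ} (hp : 100 ≤ p) (hq : 100 * p ≤ q) (he : e * (1 + p) = -2 * p)
    (hf : f * p = 4 * p + 3) {i j l : ℕ} (hij : i < j) (hjl : j < l) (hl : l ≤ 6) :
    Sg (bt i j l) (kb p e f j * (mu p q l - mu p q i) - kb p e f i * (mu p q l - mu p q j) -
      kb p e f l * (mu p q j - mu p q i)) := by
  have e1 : -2 < e := by nlinarith
  have e2 : e < -1 := by nlinarith
  have f1 : 4 < f := by nlinarith
  have f2 : f < 5 := by nlinarith
  have q0 : 0 < q := by linarith
  have p0 : 0 < p := by linarith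
  have h1 : 0 < q * (f - 4) := mul_pos q0 (by linarith)
  have h2 : 0 < q * (5 - f) := mul_pos q0 (by linarith)
  have h3 : 0 < q * (e + 2) := mul_pos q0 (by linarith)
  have h4 : 0 < q * (-1 - e) := mul_pos q0 (by linarith)
  have h5 : 0 < p * (f - 4) := mul_pos p0 (by linarith)
  have h6 : 0 < p * (5 - f) := mul_pos p0 (by linarith)
  have h7 : 0 < p * (e + 2) := mul_pos p0 (by linarith)
  have h8 : 0 < p * (-1 - e) := mul_pos p0 (by linarith)
  have h9 : 0 ≤ (p - 100) * q := mul_nonneg (by linarith) q0.le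
  interval_cases l <;> interval_cases j <;> interval_cases i <;>
    simp only [mu, kb, OfNat.ofNat_ne_zero, OfNat.ofNat_ne_one, if_true, if_false, one_ne_zero,
      OfNat.one_ne_ofNat, OfNat.zero_ne_ofNat, zero_ne_one] <;>
    norm_num only [if_true, if_false] <;>
    first
    | exact Sg.pos (by decide) (by nlinarith)
    | exact Sg.neg (by decide) (by nlinarith)
    | exact Sg.zero (by decide) (by nlinarith)

lemma base_w {p q e f : ℝ} (hp : 100 ≤ p) (hq : 100 * p ≤ q) (he : e * (1 + p) = -2 * p)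
    (hf : f * p = 4 * p + 3) {i j : ℕ} (hij : i < j) (hj : j ≤ 6) :
    Sg (bw i j) (kb p e f i * (mu p q j - (-q)) - 2 * (mu p q j - mu p q i) -
      kb p e f j * (mu p q i - (-q))) := by
  have e1 : -2 < e := by nlinarith
  have e2 : e < -1 := by nlinarith
  have f1 : 4 < f := by nlinarith
  have f2 : f < 5 := by nlinarith
  have q0 : 0 < q := by linarith
  have p0 : 0 < p := by linarith
  have h1 : 0 < q * (f - 4) := mul_pos q0 (by linarith)
  have h2 : 0 < q * (5 - f) := mul_pos q0 (by linarith)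
  have h3 : 0 < q * (e + 2) := mul_pos q0 (by linarith)
  have h4 : 0 < q * (-1 - e) := mul_pos q0 (by linarith)
  have h5 : 0 < p * (f - 4) := mul_pos p0 (by linarith)
  have h6 : 0 < p * (5 - f) := mul_pos p0 (by linarith)
  have h7 : 0 < p * (e + 2) := mul_pos p0 (by linarith)
  have h8 : 0 < p * (-1 - e) := mul_pos p0 (by linarith)
  have h9 : 0 ≤ (p - 100) * q := mul_nonneg (by linarith) q0.le
  interval_cases j <;> interval_cases i <;>
    simp only [mu, kb, OfNat.ofNat_ne_zero, OfNat.ofNat_ne_one, if_true, if_false, one_ne_zero,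
      OfNat.one_ne_ofNat, OfNat.zero_ne_ofNat, zero_ne_one] <;>
    norm_num only [if_true, if_false] <;>
    first
    | exact Sg.pos (by decide) (by nlinarith)
    | exact Sg.neg (by decide) (by nlinarith)

end Pool.Agent.Helper30.KP
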