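import Mathlib

/-!
# Levels of the lines and the combinatorial rule

The lines are numbered by `0, ..., 6 * 2 ^ k`; the base lines are the multiples of `2 ^ k`.
-/

namespace Pool.Agent.Helper30.KP

/-- the level of a line -/
def lv (k i : ℕ) : ℕ := if i = 0 then k + 1 else min (k + 1) (padicValNat 2 i)

/-- the number of the last line -/
def tp (k : ℕ) : ℕ := 6 * 2 ^ k

/-- the orientation rule for three lines `i < j < l` -/
def Xr (k i j l : ℕ) : Prop :=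
  (lv k j < lv k i ∧ lv k j < lv k l) ∨
  (lv k i = lv k j ∧ lv k j < lv k l ∧ l ≤ i + j) ∨
  (lv k j = lv k l ∧ lv k j < lv k i ∧ j + l ≤ tp k + i)

/-- the orientation rule for two lines `i < j` and the line at infinity -/
def Yr (k i j : ℕ) : Prop := lv k i < lv k j ∨ (lv k i = lv k j ∧ i + j ≤ tp k)

/-- the rule applies to the triple -/
def Gs (k x y z : ℕ) : Prop :=
  lv k x < k ∨ lv k y < k ∨ lv k z < k ∨ x + 2 ^ k = y ∨ y + 2 ^ k = x ∨ x + 2 ^ k = z ∨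
    z + 2 ^ k = x ∨ y + 2 ^ k = z ∨ z + 2 ^ k = y

/-- the rule applies to the pair -/
def Ws (k x y : ℕ) : Prop := lv k x < k ∨ lv k y < k ∨ x + 2 ^ k = y ∨ y + 2 ^ k = x

lemma lv_zero (k : ℕ) : lv k 0 = k + 1 := by simp [lv]

lemma lv_le (k i : ℕ) : lv k i ≤ k + 1 := by
  unfold lv
  split_ifs with h
  · exact le_rfl
  · exact min_le_left _ _

lemma le_lv_iff {k v x : ℕ} (hv : v ≤ k + 1) : v ≤ lv k x ↔ 2 ^ v ∣ x := by
  unfold lv
  split_ifs with h
  · subst h; simp [hv]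
  · rw [le_min_iff, padicValNat_dvd_iff_le h]
    simp [hv]

lemma tp_eq (k : ℕ) : tp k = 3 * 2 ^ (k + 1) := by
  unfold tp
  rw [pow_succ]; ring

lemma lv_tp (k : ℕ) : lv k (tp k) = k + 1 := by
  apply le_antisymm (lv_le _ _)
  rw [le_lv_iff le_rfl, tp_eq]
  exact Dvd.intro_left _ rfl

lemma lv_eq_mod {k v x : ℕ} (hv : v < k + 1) (h : lv k x = v) :
    ∃ a, x = 2 ^ (v + 1) * a + 2 ^ v := by
  have h1 : 2 ^ v ∣ x := (le_lv_iff hv.le).mp h.ge
  have h2 : ¬ 2 ^ (v + 1) ∣ x := fun h3 => by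
    have := (le_lv_iff (k := k) hv).mpr h3
    omega
  obtain ⟨c, rfl⟩ := h1
  rcases Nat.even_or_odd' c with ⟨a, ha | ha⟩
  · exfalso; apply h2; rw [ha, pow_succ]; exact ⟨a, by ring⟩
  · exact ⟨a, by rw [ha, pow_succ]; ring⟩

lemma lv_gt_dvd {k v x : ℕ} (hv : v < k + 1) (h : v < lv k x) : ∃ a, x = 2 ^ (v + 1) * a :=
  (le_lv_iff (k := k) hv).mp h

lemma gap_same {k v x y : ℕ} (hv : v < k + 1) (hx : lv k x = v) (hy : lv k y = v) (h : x < y) :
    x + 2 ^ (v + 1) ≤ y := by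
  obtain ⟨a, rfl⟩ := lv_eq_mod hv hx
  obtain ⟨b, rfl⟩ := lv_eq_mod hv hy
  have h1 : 2 ^ (v + 1) * a < 2 ^ (v + 1) * b := by omega
  have h2 : a < b := Nat.lt_of_mul_lt_mul_left h1
  have h3 : 2 ^ (v + 1) * (a + 1) ≤ 2 ^ (v + 1) * b := Nat.mul_le_mul_left _ h2
  rw [mul_add, mul_one] at h3
  omega

lemma gap_high {k v x y : ℕ} (hv : v < k + 1) (hx : v < lv k x) (hy : v < lv k y) (h : x < y) :
    x + 2 ^ (v + 1) ≤ y := by
  obtain ⟨a, rfl⟩ := lv_gt_dvd hv hx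
  obtain ⟨b, rfl⟩ := lv_gt_dvd hv hy
  have h2 : a < b := Nat.lt_of_mul_lt_mul_left h
  have h3 : 2 ^ (v + 1) * (a + 1) ≤ 2 ^ (v + 1) * b := Nat.mul_le_mul_left _ h2
  rw [mul_add, mul_one] at h3
  exact h3

/-- different base lines have distance at least `2 ^ k` -/
lemma gap_base {k x y : ℕ} (hx : k ≤ lv k x) (hy : k ≤ lv k y) (h : x < y) :
    x + 2 ^ k ≤ y := by
  obtain ⟨a, rfl⟩ := (le_lv_iff (by omega : k ≤ k + 1)).mp hx
  obtain ⟨b, rfl⟩ := (le_lv_iff (by omega : k ≤ k + 1)).mp hy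
  have h2 : a < b := Nat.lt_of_mul_lt_mul_left h
  have h3 : 2 ^ k * (a + 1) ≤ 2 ^ k * b := Nat.mul_le_mul_left _ h2
  rw [mul_add, mul_one] at h3
  exact h3

lemma lv_add_gt {k v x y : ℕ} (hv : v < k + 1) (hx : lv k x = v) (hy : lv k y = v) :
    v < lv k (x + y) := by
  obtain ⟨a, rfl⟩ := lv_eq_mod hv hx
  obtain ⟨b, rfl⟩ := lv_eq_mod hv hy
  apply (le_lv_iff (k := k) hv).mpr
  refine ⟨a + b + 1, ?_⟩
  rw [pow_succ]; ring

lemma lv_add_gt' {k v x y : ℕ} (hv : v < k + 1) (hx : v < lv k x) (hy : v < lv k y) :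
    v < lv k (x + y) := by
  obtain ⟨a, ha⟩ := lv_gt_dvd hv hx
  obtain ⟨b, hb⟩ := lv_gt_dvd hv hy
  apply (le_lv_iff (k := k) hv).mpr
  exact ⟨a + b, by rw [ha, hb, mul_add]⟩

lemma lv_pow_succ {k v : ℕ} (hv : v < k + 1) : v < lv k (2 ^ (v + 1)) :=
  (le_lv_iff (k := k) hv).mpr dvd_rfl

lemma lv_of_mod {k v x a : ℕ} (hv : v < k + 1) (h : x = 2 ^ (v + 1) * a + 2 ^ v) :
    lv k x = v := by
  have h1 : v ≤ lv k x := by
    rw [le_lv_iff hv.le, h, pow_succ]
    exact ⟨2 * a + 1, by ring⟩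
  have h2 : ¬ v + 1 ≤ lv k x := by
    rw [le_lv_iff (by omega), h]
    rintro ⟨c, hc⟩
    have h3 : 2 ^ (v + 1) = 2 * 2 ^ v := by rw [pow_succ]; ring
    rw [h3] at hc
    have h4 : 2 ^ v * (2 * a + 1) = 2 ^ v * (2 * c) := by linarith
    have h5 := Nat.eq_of_mul_eq_mul_left (by positivity) h4
    omega
  omega

lemma lv_two_mul {k v r : ℕ} (hv : v + 1 < k + 1) (hr : lv k r = v) : lv k (2 * r) = v + 1 := by
  obtain ⟨a, ha⟩ := lv_eq_mod (by omega) hr
  apply lv_of_mod (a := a) hv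
  rw [ha, pow_succ (n := v + 1), pow_succ]; ring

lemma lv_two_mul_add {k v r : ℕ} (hv : v + 1 < k + 1) (hr : lv k r = v) :
    v + 1 < lv k (2 * r + 2 ^ (v + 1)) := by
  obtain ⟨a, ha⟩ := lv_eq_mod (by omega) hr
  apply (le_lv_iff (k := k) hv).mpr
  refine ⟨a + 1, ?_⟩
  rw [ha, pow_succ (n := v + 1), pow_succ]; ring

lemma ge_of_lv {k v q : ℕ} (hv : v < k + 1) (h : lv k q = v) : 2 ^ v ≤ q := by
  obtain ⟨a, rfl⟩ := lv_eq_mod hv h
  omega

/-- mirror symmetry of the levels -/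
lemma lv_mirror {k x : ℕ} (hx : x ≤ tp k) : lv k (tp k - x) = lv k x := by
  have h1 : ∀ v, v ≤ k + 1 → (v ≤ lv k (tp k - x) ↔ v ≤ lv k x) := by
    intro v hv
    rw [le_lv_iff hv, le_lv_iff hv]
    have h2 : 2 ^ v ∣ tp k := by
      rw [tp_eq]
      exact (pow_dvd_pow 2 hv).mul_left _
    constructor
    · intro h
      have := (Nat.dvd_sub h2 h)
      rwa [Nat.sub_sub_self hx] at this
    · intro h
      exact Nat.dvd_sub h2 h
  have h3 : lv k (tp k - x) ≤ k + 1 := lv_le _ _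
  have h4 : lv k x ≤ k + 1 := lv_le _ _
  have h5 := (h1 _ h3).mp le_rfl
  have h6 := (h1 _ h4).mpr le_rfl
  omega

/-- the line `q` does not separate the vertices of the triangle `a < b < c` -/
def NS (k a b c q : ℕ) : Prop :=
  (q < a → ((Xr k q a b ↔ Xr k q a c) ∧ (Xr k q a c ↔ Xr k q b c))) ∧
  (a < q → q < b → ((Xr k a q b ↔ Xr k a q c) ∧ (Xr k a q c ↔ ¬ Xr k q b c))) ∧
  (b < q → q < c → ((Xr k a b q ↔ ¬ Xr k a q c) ∧ (Xr k a q c ↔ Xr k b q c))) ∧
  (c < q → ((Xr k a b q ↔ Xr k a c q) ∧ (Xr k a c q ↔ Xr k b c q)))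

/-- two lines of the same level and the older line next to their crossing -/
lemma NS_A {k v r s t : ℕ} (hv : v < k + 1) (h0 : 0 < r) (hr : lv k r = v) (hs : lv k s = v)
    (hrs : r < s) (ht : t = r + s ∨ t = r + s + 2 ^ (v + 1)) (htk : t ≤ tp k) {q : ℕ}
    (hq : q ≤ tp k) (hqt : q ≠ t) : NS k r s t q := by
  have hsum : v < lv k (r + s) := lv_add_gt hv hr hs
  have hlt : v < lv k t := by
    rcases ht with rfl | rfl
    · exact hsum
    · exact lv_add_gt' hv hsum (lv_pow_succ hv)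
  have g1 : lv k q = v → q < r → q + 2 ^ (v + 1) ≤ r := fun h h' => gap_same hv h hr h'
  have g2 : lv k q = v → r < q → r + 2 ^ (v + 1) ≤ q := fun h h' => gap_same hv hr h h'
  have g3 : lv k q = v → q < s → q + 2 ^ (v + 1) ≤ s := fun h h' => gap_same hv h hs h'
  have g4 : lv k q = v → s < q → s + 2 ^ (v + 1) ≤ q := fun h h' => gap_same hv hs h h'
  have g5 : v < lv k q → q < t → q + 2 ^ (v + 1) ≤ t := fun h h' => gap_high hv h hlt h'
  have hMpos : 0 < 2 ^ (v + 1) := by positivity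
  unfold NS Xr
  generalize 2 ^ (v + 1) = M at *
  generalize tp k = N at *
  generalize lv k q = lq at *
  generalize lv k t = lt at *
  generalize lv k r = lr at *
  generalize lv k s = ls at *
  refine ⟨?_, ?_, ?_, ?_⟩
  · intro h
    omega
  · intro h h'
    omega
  · intro h h'
    omega
  · intro h
    omega

/-- a line and the two lines of the wedge which it closes -/
lemma NS_B {k v r : ℕ} (hv : v + 1 < k + 1) (h0 : 0 < r) (hr : lv k r = v)
    (htk : 2 * r + 2 ^ (v + 1) ≤ tp k) {q : ℕ}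
    (hq : q ≤ tp k) (hq1 : q ≠ r) (hq2 : q ≠ 2 * r) (hq3 : q ≠ 2 * r + 2 ^ (v + 1)) :
    NS k r (2 * r) (2 * r + 2 ^ (v + 1)) q := by
  have l2 := lv_two_mul hv hr
  have l3 := lv_two_mul_add hv hr
  have g1 : lv k q = v → q < r → q + 2 ^ (v + 1) ≤ r := fun h h' => gap_same (by omega) h hr h'
  have g2 : lv k q = v → r < q → r + 2 ^ (v + 1) ≤ q := fun h h' => gap_same (by omega) hr h h'
  have g3 : v < lv k q → 2 * r < q → 2 * r + 2 ^ (v + 1) ≤ q :=
    fun h h' => gap_high (by omega) (by omega) h h'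
  have g4 : lv k q = v + 1 → 2 ^ (v + 1) ≤ q := fun h => ge_of_lv (by omega) h
  have hMpos : 0 < 2 ^ (v + 1) := by positivity
  unfold NS Xr
  generalize lv k (2 * r + 2 ^ (v + 1)) = l3' at *
  generalize lv k (2 * r) = l2' at *
  generalize 2 ^ (v + 1) = M at *
  generalize tp k = N at *
  generalize lv k q = lq at *
  generalize lv k r = lr at *
  refine ⟨?_, ?_, ?_, ?_⟩
  · intro h
    omega
  · intro h h'
    omega
  · intro h h'
    omega
  · intro h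
    omega

lemma Xr_mirror {k i j l : ℕ} (hij : i < j) (hjl : j < l) (hl : l ≤ tp k) :
    Xr k (tp k - l) (tp k - j) (tp k - i) ↔ Xr k i j l := by
  have e1 : tp k - i ≤ tp k - l + (tp k - j) ↔ j + l ≤ tp k + i := by omega
  have e2 : tp k - j + (tp k - i) ≤ tp k + (tp k - l) ↔ l ≤ i + j := by omega
  unfold Xr
  rw [lv_mirror (by omega : i ≤ tp k), lv_mirror (by omega : j ≤ tp k), lv_mirror hl, e1, e2]
  generalize lv k i = li
  generalize lv k j = lj
  generalize lv k l = ll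
  constructor
  · rintro (⟨h1, h2⟩ | ⟨h1, h2, h3⟩ | ⟨h1, h2, h3⟩)
    · exact Or.inl ⟨h2, h1⟩
    · exact Or.inr (Or.inr ⟨h1.symm, h2, h3⟩)
    · exact Or.inr (Or.inl ⟨h1.symm, h2, h3⟩)
  · rintro (⟨h1, h2⟩ | ⟨h1, h2, h3⟩ | ⟨h1, h2, h3⟩)
    · exact Or.inl ⟨h2, h1⟩
    · exact Or.inr (Or.inr ⟨h1.symm, h2, h3⟩)
    · exact Or.inr (Or.inl ⟨h1.symm, h2, h3⟩)

lemma Gs_mirror {k x y z : ℕ} (hx : x ≤ tp k) (hy : y ≤ tp k) (hz : z ≤ tp k)
    (h : Gs k (tp k - x) (tp k - y) (tp k - z)) : Gs k x y z := by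
  unfold Gs at *
  rw [lv_mirror hx, lv_mirror hy, lv_mirror hz] at h
  omega

lemma prop1 {P1 P2 P3 Q1 Q2 Q3 : Prop} (h : (P1 ↔ P2) ∧ (P2 ↔ P3)) (m1 : P1 ↔ Q3) (m2 : P2 ↔ Q2)
    (m3 : P3 ↔ Q1) : (Q1 ↔ Q2) ∧ (Q2 ↔ Q3) := by tauto

lemma prop2 {P1 P2 P3 Q1 Q2 Q3 : Prop} (h : (P1 ↔ ¬ P2) ∧ (P2 ↔ P3)) (m1 : P1 ↔ Q3)
    (m2 : P2 ↔ Q2) (m3 : P3 ↔ Q1) : (Q1 ↔ Q2) ∧ (Q2 ↔ ¬ Q3) := by tauto

lemma prop3 {P1 P2 P3 Q1 Q2 Q3 : Prop} (h : (P1 ↔ P2) ∧ (P2 ↔ ¬ P3)) (m1 : P1 ↔ Q3)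
    (m2 : P2 ↔ Q2) (m3 : P3 ↔ Q1) : (Q1 ↔ ¬ Q2) ∧ (Q2 ↔ Q3) := by tauto

lemma NS_mirror {k a b c q : ℕ} (hab : a < b) (hbc : b < c) (hc : c ≤ tp k) (hq : q ≤ tp k)
    (h : NS k (tp k - c) (tp k - b) (tp k - a) (tp k - q)) : NS k a b c q := by
  obtain ⟨h1, h2, h3, h4⟩ := h
  refine ⟨fun hqa => ?_, fun h5 h6 => ?_, fun h5 h6 => ?_, fun hcq => ?_⟩
  · exact prop1 (h4 (by omega)) (Xr_mirror (by omega) (by omega) (by omega))
      (Xr_mirror (by omega) (by omega) (by omega)) (Xr_mirror (by omega) (by omega) (by omega))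
  · exact prop2 (h3 (by omega) (by omega)) (Xr_mirror (by omega) (by omega) (by omega))
      (Xr_mirror (by omega) (by omega) (by omega)) (Xr_mirror (by omega) (by omega) (by omega))
  · exact prop3 (h2 (by omega) (by omega)) (Xr_mirror (by omega) (by omega) (by omega))
      (Xr_mirror (by omega) (by omega) (by omega)) (Xr_mirror (by omega) (by omega) (by omega))
  · exact prop1 (h1 (by omega)) (Xr_mirror (by omega) (by omega) (by omega))
      (Xr_mirror (by omega) (by omega) (by omega)) (Xr_mirror (by omega) (by omega) (by omega))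

/-- an empty triangle of the rule -/
def IsTri (k a b c : ℕ) : Prop :=
  a < b ∧ b < c ∧ c ≤ tp k ∧ Gs k a b c ∧ ∀ q, q ≤ tp k → q ≠ a → q ≠ b → q ≠ c →
    NS k a b c q ∧ Gs k q a b ∧ Gs k q a c ∧ Gs k q b c

lemma IsTri.mirror {k a b c : ℕ} (hc : c ≤ tp k) (hab : a < b) (hbc : b < c)
    (h : IsTri k (tp k - c) (tp k - b) (tp k - a)) : IsTri k a b c := by
  obtain ⟨-, -, -, h1, h2⟩ := h
  have g1 : Gs k c b a := Gs_mirror hc (by omega) (by omega) h1
  refine ⟨hab, hbc, hc, ?_, fun q hq n1 n2 n3 => ?_⟩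
  · unfold Gs at *; omega
  · obtain ⟨e1, e2, e3, e4⟩ := h2 (tp k - q) (Nat.sub_le _ _) (by omega) (by omega) (by omega)
    have f2 : Gs k q c b := Gs_mirror hq hc (by omega) e2
    have f3 : Gs k q c a := Gs_mirror hq hc (by omega) e3
    have f4 : Gs k q b a := Gs_mirror hq (by omega) (by omega) e4
    refine ⟨NS_mirror hab hbc hc hq e1, ?_, ?_, ?_⟩
    · unfold Gs at *; omega
    · unfold Gs at *; omega
    · unfold Gs at *; omega

/-- the crossings are on the same side of the removed line -/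
def IsW (k a b c : ℕ) : Prop :=
  Ws k a b ∧ Ws k a c ∧ Ws k b c ∧ (Yr k a b ↔ Yr k a c) ∧ (Yr k a c ↔ Yr k b c)

lemma tri_A {k v r s t : ℕ} (hv : v < k) (h0 : 0 < r) (hr : lv k r = v) (hs : lv k s = v)
    (hrs : r < s) (ht : t = r + s ∨ t = r + s + 2 ^ (v + 1)) (htk : t ≤ tp k) :
    IsTri k r s t ∧ IsW k r s t := by
  have hM : 0 < 2 ^ (v + 1) := by positivity
  have hsum : v < lv k (r + s) := lv_add_gt (by omega) hr hs
  have hlt : v < lv k t := by
    rcases ht with rfl | rfl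
    · exact hsum
    · exact lv_add_gt' (by omega) hsum (lv_pow_succ (by omega))
  refine ⟨⟨hrs, by omega, htk, Or.inl (by omega), fun q hq _ _ h3 =>
    ⟨NS_A (by omega) h0 hr hs hrs ht htk hq h3, Or.inr (Or.inl (by omega)),
      Or.inr (Or.inl (by omega)), Or.inr (Or.inl (by omega))⟩⟩,
    Or.inl (by omega), Or.inl (by omega), Or.inl (by omega), ?_, ?_⟩
  · unfold Yr; omega
  · unfold Yr; omega

lemma tri_A' {k v r s t : ℕ} (hv : v < k) (hr : lv k r = v) (hs : lv k s = v)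
    (hrs : r < s) (hsN : s < tp k) (hN : tp k < r + s)
    (ht : t + tp k = r + s ∨ t + tp k + 2 ^ (v + 1) = r + s) :
    IsTri k t r s ∧ IsW k t r s := by
  have hM : 0 < 2 ^ (v + 1) := by positivity
  have h1 := tri_A (k := k) (v := v) (r := tp k - s) (s := tp k - r) (t := tp k - t) hv (by omega)
    (by rw [lv_mirror hsN.le]; exact hs) (by rw [lv_mirror (by omega)]; exact hr) (by omega)
    (by omega) (by omega)
  have hsum : v < lv k ((tp k - s) + (tp k - r)) :=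
    lv_add_gt (by omega) (by rw [lv_mirror hsN.le]; exact hs)
      (by rw [lv_mirror (by omega)]; exact hr)
  have hlt : v < lv k t := by
    rw [← lv_mirror (by omega : t ≤ tp k)]
    rcases ht with h | h
    · have e : tp k - t = (tp k - s) + (tp k - r) := by omega
      rw [e]; exact hsum
    · have e : tp k - t = (tp k - s) + (tp k - r) + 2 ^ (v + 1) := by omega
      rw [e]; exact lv_add_gt' (by omega) hsum (lv_pow_succ (by omega))
  refine ⟨IsTri.mirror hsN.le (by omega) hrs h1.1, Or.inr (Or.inl (by omega)),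
    Or.inr (Or.inl (by omega)), Or.inl (by omega), ?_, ?_⟩
  · unfold Yr; omega
  · unfold Yr; omega

lemma tri_B {k v r : ℕ} (hv : v < k) (h0 : 0 < r) (hr : lv k r = v)
    (htk : 2 * r + 2 ^ (v + 1) ≤ tp k) :
    IsTri k r (2 * r) (2 * r + 2 ^ (v + 1)) ∧ IsW k r (2 * r) (2 * r + 2 ^ (v + 1)) := by
  have hM : 0 < 2 ^ (v + 1) := by positivity
  have l2 := lv_two_mul (k := k) (by omega) hr
  have l3 := lv_two_mul_add (k := k) (by omega) hr
  have hadj : v + 1 < k ∨ v + 1 = k := by omega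
  have key : ∀ q, Gs k q (2 * r) (2 * r + 2 ^ (v + 1)) := by
    intro q
    rcases hadj with h | h
    · exact Or.inr (Or.inl (by omega))
    · unfold Gs; rw [h]; omega
  have key2 : Ws k (2 * r) (2 * r + 2 ^ (v + 1)) := by
    rcases hadj with h | h
    · exact Or.inl (by omega)
    · unfold Ws; rw [h]; omega
  refine ⟨⟨by omega, by omega, htk, Or.inl (by omega), fun q hq h1 h2 h3 =>
    ⟨NS_B (by omega) h0 hr htk hq h1 h2 h3, Or.inr (Or.inl (by omega)),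
      Or.inr (Or.inl (by omega)), key q⟩⟩, Or.inl (by omega), Or.inl (by omega), key2, ?_, ?_⟩
  · unfold Yr; omega
  · unfold Yr; omega

lemma tri_B' {k v r : ℕ} (hv : v < k) (hr : lv k r = v) (hrN : r < tp k)
    (htk : tp k + 2 ^ (v + 1) ≤ 2 * r) :
    IsTri k (2 * r - tp k - 2 ^ (v + 1)) (2 * r - tp k) r ∧
      IsW k (2 * r - tp k - 2 ^ (v + 1)) (2 * r - tp k) r := by
  have hM : 0 < 2 ^ (v + 1) := by positivity
  have hlr : lv k (tp k - r) = v := by rw [lv_mirror hrN.le]; exact hr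
  have h1 := tri_B (k := k) (v := v) (r := tp k - r) hv (by omega) hlr (by omega)
  have e1 : tp k - (2 * r - tp k) = 2 * (tp k - r) := by omega
  have e2 : tp k - (2 * r - tp k - 2 ^ (v + 1)) = 2 * (tp k - r) + 2 ^ (v + 1) := by omega
  have l2 := lv_two_mul (k := k) (by omega) hlr
  have l3 := lv_two_mul_add (k := k) (by omega) hlr
  rw [← e1, lv_mirror (by omega)] at l2
  rw [← e2, lv_mirror (by omega)] at l3
  have key2 : Ws k (2 * r - tp k - 2 ^ (v + 1)) (2 * r - tp k) := by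
    have hadj : v + 1 < k ∨ v + 1 = k := by omega
    rcases hadj with h | h
    · exact Or.inr (Or.inl (by omega))
    · unfold Ws; rw [h] at htk ⊢; omega
  refine ⟨IsTri.mirror hrN.le (by omega) (by omega) ?_, key2, Or.inr (Or.inl (by omega)),
    Or.inr (Or.inl (by omega)), ?_, ?_⟩
  · rw [e1, e2]; exact h1.1
  · unfold Yr; omega
  · unfold Yr; omega

end Pool.Agent.Helper30.KP
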