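import Pool.Agent.Helper30.KP.Trig
import Pool.Agent.Helper30.KP.Level

/-!
# The leading coefficients
-/

namespace Pool.Agent.Helper30.KP

open Finset Filter Topology

/-- orientation of three lines with slopes `m` and intercepts `K` -/
def G (m K : ℕ → ℝ) (i j l : ℕ) : ℝ :=
  K j * (m l - m i) - K i * (m l - m j) - K l * (m j - m i)

/-- the bracket -/
def Qb (b x y z : ℝ) : ℝ := b - x * y + z * (x + y)

lemma exists_b (N : ℕ) : ∃ b : ℝ, 1 < b ∧ ∀ i j l : ℕ, i < N → j < N → l < N →
    Qb 1 (cc N i) (cc N j) (cc N l) < 0 → Qb b (cc N i) (cc N j) (cc N l) < 0 := by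
  have h : ∀ᶠ ε in 𝓝[>] (0 : ℝ), ∀ x : Fin N × Fin N × Fin N,
      Qb 1 (cc N x.1) (cc N x.2.1) (cc N x.2.2) < 0 →
      Qb 1 (cc N x.1) (cc N x.2.1) (cc N x.2.2) + ε < 0 := by
    rw [eventually_all]
    intro x
    by_cases hx : Qb 1 (cc N x.1) (cc N x.2.1) (cc N x.2.2) < 0
    · have h1 : ∀ᶠ ε in 𝓝 (0 : ℝ), ε < - Qb 1 (cc N x.1) (cc N x.2.1) (cc N x.2.2) :=
        eventually_lt_nhds (by linarith)
      filter_upwards [h1.filter_mono nhdsWithin_le_nhds] with ε hε _
      linarith
    · filter_upwards with ε h2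
      exact absurd h2 hx
  obtain ⟨ε, h1, h2⟩ := (h.and self_mem_nhdsWithin).exists
  have h2' : 0 < ε := h2
  refine ⟨1 + ε, by linarith, ?_⟩
  intro i j l hi hj hl hQ
  have := h1 (⟨i, hi⟩, ⟨j, hj⟩, ⟨l, hl⟩) hQ
  simp only at this
  unfold Qb at this ⊢
  linarith

/-- the outer slopes are large enough -/
def Big (N : ℕ) (b C : ℝ) : Prop :=
  (∀ i : ℕ, i < N → |cc N i| < C) ∧ ∀ i j : ℕ, i < N → j < N →
    (0 < cc N i + cc N j → Qb b (cc N i) (cc N j) (-C) < 0 ∧ 0 < Qb b (cc N i) (cc N j) C) ∧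
    (cc N i + cc N j < 0 → 0 < Qb b (cc N i) (cc N j) (-C) ∧ Qb b (cc N i) (cc N j) C < 0)

lemma eventually_big (N : ℕ) (b : ℝ) : ∀ᶠ C in (atTop : Filter ℝ), Big N b C := by
  have h1 : ∀ᶠ C in (atTop : Filter ℝ), ∀ i : Fin N, |cc N i| < C := by
    rw [eventually_all]
    intro i
    exact eventually_gt_atTop _
  have h2 : ∀ᶠ C in (atTop : Filter ℝ), ∀ x : Fin N × Fin N,
      (0 < cc N x.1 + cc N x.2 → Qb b (cc N x.1) (cc N x.2) (-C) < 0 ∧
        0 < Qb b (cc N x.1) (cc N x.2) C) ∧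
      (cc N x.1 + cc N x.2 < 0 → 0 < Qb b (cc N x.1) (cc N x.2) (-C) ∧
        Qb b (cc N x.1) (cc N x.2) C < 0) := by
    rw [eventually_all]
    intro x
    filter_upwards [eventually_gt_atTop (|b - cc N x.1 * cc N x.2| / |cc N x.1 + cc N x.2|)]
      with C hC
    have e1 := le_abs_self (b - cc N x.1 * cc N x.2)
    have e2 := neg_abs_le (b - cc N x.1 * cc N x.2)
    constructor
    · intro h
      rw [div_lt_iff₀ (abs_pos.mpr h.ne'), abs_of_pos h] at hC
      unfold Qb
      constructor <;> linarith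
    · intro h
      rw [div_lt_iff₀ (abs_pos.mpr h.ne), abs_of_neg h] at hC
      unfold Qb
      constructor <;> linarith
  filter_upwards [h1, h2] with C h3 h4
  exact ⟨fun i hi => h3 ⟨i, hi⟩, fun i j hi hj => h4 (⟨i, hi⟩, ⟨j, hj⟩)⟩

/-- negative slopes -/
noncomputable def cs (N : ℕ) (C0 C1 : ℝ) (i : ℕ) : ℝ :=
  if i = 0 then C0 else if i = N then -C1 else cc N i

/-- scaled intercepts -/
noncomputable def kap (k : ℕ) (b : ℝ) (κ : ℕ → ℝ) (i : ℕ) : ℝ :=
  if lv k i < k then cc (tp k) i ^ 2 + b else κ i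

/-- the exponents -/
def el (k i : ℕ) : ℕ := min (lv k i) k

lemma cs_mid {N : ℕ} {C0 C1 : ℝ} {i : ℕ} (h0 : 0 < i) (h1 : i < N) :
    cs N C0 C1 i = cc N i := by
  simp [cs, h0.ne', h1.ne]

lemma cs_zero {N : ℕ} {C0 C1 : ℝ} : cs N C0 C1 0 = C0 := by simp [cs]

lemma cs_top {N : ℕ} (hN : 0 < N) {C0 C1 : ℝ} : cs N C0 C1 N = -C1 := by simp [cs, hN.ne']

lemma kap_mid {k : ℕ} {b : ℝ} {κ : ℕ → ℝ} {i : ℕ} (h : lv k i < k) :
    kap k b κ i = cc (tp k) i ^ 2 + b := by
  simp [kap, h]

lemma kap_pos {k : ℕ} {b : ℝ} (hb : 1 < b) {κ : ℕ → ℝ} {i : ℕ} (h : lv k i < k) :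
    0 < kap k b κ i := by
  rw [kap_mid h]; positivity

lemma tp_pos (k : ℕ) : 0 < tp k := by unfold tp; positivity

lemma cs_anti {N : ℕ} {C0 C1 : ℝ} (h0 : 0 < C0) (h1 : 0 < C1)
    (hC0 : ∀ i : ℕ, i < N → |cc N i| < C0) (hC1 : ∀ i : ℕ, i < N → |cc N i| < C1)
    {i j : ℕ} (hij : i < j) (hj : j ≤ N) : cs N C0 C1 j < cs N C0 C1 i := by
  have hN : 0 < N := by omega
  rcases Nat.eq_zero_or_pos i with hi0 | hi0
  · subst hi0
    rw [cs_zero]
    rcases Nat.lt_or_ge j N with h2 | h2
    · rw [cs_mid hij h2]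
      exact (abs_lt.mp (hC0 j h2)).2
    · have h3 : j = N := le_antisymm hj h2
      rw [h3, cs_top hN]; linarith
  · have hi : i < N := lt_of_lt_of_le hij hj
    rw [cs_mid hi0 hi]
    rcases Nat.lt_or_ge j N with h2 | h2
    · rw [cs_mid (hi0.trans hij) h2]
      exact cc_anti hi0 hij h2
    · have h3 : j = N := le_antisymm hj h2
      rw [h3, cs_top hN]
      exact (abs_lt.mp (hC1 i hi)).1

/-- sign of the leading coefficient for three lines -/
lemma leading {k : ℕ} {b C0 C1 : ℝ} {κ : ℕ → ℝ} (hb : 1 < b)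
    (hbQ : ∀ i j l : ℕ, i < tp k → j < tp k → l < tp k →
      Qb 1 (cc (tp k) i) (cc (tp k) j) (cc (tp k) l) < 0 →
      Qb b (cc (tp k) i) (cc (tp k) j) (cc (tp k) l) < 0)
    (p0 : 0 < C0) (p1 : 0 < C1) (B0 : Big (tp k) b C0) (B1 : Big (tp k) b C1)
    {i j l : ℕ} (hij : i < j) (hjl : j < l) (hl : l ≤ tp k)
    (hlow : lv k i < k ∨ lv k j < k ∨ lv k l < k) :
    ∃ w, w ≤ el k i ∧ w ≤ el k j ∧ w ≤ el k l ∧
      (Xr k i j l → 0 <
        (if el k j = w then kap k b κ j * (cs (tp k) C0 C1 i - cs (tp k) C0 C1 l) else 0) +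
        (if el k i = w then -(kap k b κ i * (cs (tp k) C0 C1 j - cs (tp k) C0 C1 l)) else 0) +
        (if el k l = w then -(kap k b κ l * (cs (tp k) C0 C1 i - cs (tp k) C0 C1 j)) else 0)) ∧
      (¬ Xr k i j l → 0 <
        (if el k j = w then -(kap k b κ j * (cs (tp k) C0 C1 i - cs (tp k) C0 C1 l)) else 0) +
        (if el k i = w then kap k b κ i * (cs (tp k) C0 C1 j - cs (tp k) C0 C1 l) else 0) +
        (if el k l = w then kap k b κ l * (cs (tp k) C0 C1 i - cs (tp k) C0 C1 j) else 0)) := by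
  have hl0' : 0 < tp k := tp_pos k
  have hlz := lv_zero k
  have hlt := lv_tp k
  have hj0 : 0 < j := by omega
  have hjN : j < tp k := by omega
  obtain ⟨hC0, hQ0⟩ := B0
  obtain ⟨hC1, hQ1⟩ := B1
  have hAi : 0 < cs (tp k) C0 C1 j - cs (tp k) C0 C1 l :=
    sub_pos.mpr (cs_anti p0 p1 hC0 hC1 hjl hl)
  have hAj : 0 < cs (tp k) C0 C1 i - cs (tp k) C0 C1 l :=
    sub_pos.mpr (cs_anti p0 p1 hC0 hC1 (hij.trans hjl) hl)
  have hAl : 0 < cs (tp k) C0 C1 i - cs (tp k) C0 C1 j :=
    sub_pos.mpr (cs_anti p0 p1 hC0 hC1 hij hjN.le)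
  -- positions of `i` and `l` when their level is small
  have hi0 : lv k i < k → 0 < i := by
    intro h
    rcases Nat.eq_zero_or_pos i with h0 | h0
    · rw [h0, lv_zero] at h; omega
    · exact h0
  have hlN : lv k l < k → l < tp k := by
    intro h
    rcases Nat.lt_or_ge l (tp k) with h0 | h0
    · exact h0
    · have : l = tp k := le_antisymm hl h0
      rw [this, lv_tp] at h; omega
  have hiN : i < tp k := by omega
  have hl0 : 0 < l := by omega
  -- the bracket identities
  have id1 : lv k i < k → lv k j < k →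
      kap k b κ j * (cs (tp k) C0 C1 i - cs (tp k) C0 C1 l) +
        -(kap k b κ i * (cs (tp k) C0 C1 j - cs (tp k) C0 C1 l)) =
      (cc (tp k) i - cc (tp k) j) * Qb b (cc (tp k) i) (cc (tp k) j) (cs (tp k) C0 C1 l) := by
    intro h0 h1
    rw [kap_mid h1, kap_mid h0, cs_mid (hi0 h0) hiN, cs_mid hj0 hjN]
    unfold Qb; ring
  have id2 : lv k j < k → lv k l < k →
      kap k b κ j * (cs (tp k) C0 C1 i - cs (tp k) C0 C1 l) +
      -(kap k b κ l * (cs (tp k) C0 C1 i - cs (tp k) C0 C1 j)) =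
      (cc (tp k) j - cc (tp k) l) * Qb b (cc (tp k) j) (cc (tp k) l) (cs (tp k) C0 C1 i) := by
    intro h1 h0
    rw [kap_mid h1, kap_mid h0, cs_mid hl0 (hlN h0), cs_mid hj0 hjN]
    unfold Qb; ring
  have dij : 0 < i → 0 < cc (tp k) i - cc (tp k) j :=
    fun h0 => sub_pos.mpr (cc_anti h0 hij hjN)
  have djl : l < tp k → 0 < cc (tp k) j - cc (tp k) l :=
    fun h0 => sub_pos.mpr (cc_anti hj0 hjl h0)
  -- sign of the first bracket
  have br1p : 0 < i → l ≤ i + j →
      0 < Qb b (cc (tp k) i) (cc (tp k) j) (cs (tp k) C0 C1 l) := by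
    intro h0 hle
    rcases Nat.lt_or_ge l (tp k) with h1 | h1
    · rw [cs_mid hl0 h1]
      have h2 : 0 ≤ 1 - cc (tp k) i * cc (tp k) j + cc (tp k) l * (cc (tp k) i + cc (tp k) j) := by
        rcases Nat.lt_or_ge l (i + j) with h3 | h3
        · exact (Q_pos h0 hiN hj0 hjN hl0 h1 h3 (by omega)).le
        · exact (Q_zero h0 hiN hj0 hjN hl0 h1 (Or.inl (le_antisymm hle h3))).ge
      unfold Qb; linarith
    · have h2 : l = tp k := le_antisymm hl h1
      have e2 : cs (tp k) C0 C1 l = -C1 := by rw [h2]; exact cs_top hl0'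
      rw [e2]
      rcases Nat.lt_or_ge (tp k) (i + j) with h3 | h3
      · exact ((hQ1 i j hiN hjN).2 (cc_add_neg h0 hiN hj0 hjN h3)).1
      · have h4 := cc_add_zero h0 hiN hj0 hjN (by omega : i + j = tp k)
        unfold Qb
        rw [h4]
        have h5 : cc (tp k) i = - cc (tp k) j := by linarith
        rw [h5]
        nlinarith [sq_nonneg (cc (tp k) j)]
  have br1n : 0 < i → i + j < l →
      Qb b (cc (tp k) i) (cc (tp k) j) (cs (tp k) C0 C1 l) < 0 := by
    intro h0 hlt
    rcases Nat.lt_or_ge l (tp k) with h1 | h1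
    · rw [cs_mid hl0 h1]
      apply hbQ i j l hiN hjN h1
      exact Q_neg h0 hiN hj0 hjN hl0 h1 (Or.inl hlt)
    · have h2 : l = tp k := le_antisymm hl h1
      have e2 : cs (tp k) C0 C1 l = -C1 := by rw [h2]; exact cs_top hl0'
      rw [e2]
      exact ((hQ1 i j hiN hjN).1 (cc_add_pos h0 hiN hj0 hjN (by omega))).1
  have br2p : l < tp k → j + l ≤ tp k + i →
      0 < Qb b (cc (tp k) j) (cc (tp k) l) (cs (tp k) C0 C1 i) := by
    intro h0 hle
    rcases Nat.eq_zero_or_pos i with h1 | h1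
    · have e2 : cs (tp k) C0 C1 i = C0 := by rw [h1]; exact cs_zero
      rw [e2]
      rcases Nat.lt_or_ge (j + l) (tp k) with h3 | h3
      · exact ((hQ0 j l hjN h0).1 (cc_add_pos hj0 hjN hl0 h0 h3)).2
      · have h4 := cc_add_zero hj0 hjN hl0 h0 (by omega : j + l = tp k)
        unfold Qb
        rw [h4]
        have h5 : cc (tp k) j = - cc (tp k) l := by linarith
        rw [h5]
        nlinarith [sq_nonneg (cc (tp k) l)]
    · rw [cs_mid h1 hiN]
      have h2 : 0 ≤ 1 - cc (tp k) j * cc (tp k) l + cc (tp k) i * (cc (tp k) j + cc (tp k) l) := by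
        rcases Nat.lt_or_ge (j + l) (tp k + i) with h3 | h3
        · exact (Q_pos hj0 hjN hl0 h0 h1 hiN (by omega) h3).le
        · exact (Q_zero hj0 hjN hl0 h0 h1 hiN (Or.inr (le_antisymm hle h3))).ge
      unfold Qb; linarith
  have br2n : l < tp k → tp k + i < j + l →
      Qb b (cc (tp k) j) (cc (tp k) l) (cs (tp k) C0 C1 i) < 0 := by
    intro h0 hlt
    rcases Nat.eq_zero_or_pos i with h1 | h1
    · have e2 : cs (tp k) C0 C1 i = C0 := by rw [h1]; exact cs_zero
      rw [e2]
      exact ((hQ0 j l hjN h0).2 (cc_add_neg hj0 hjN hl0 h0 (by omega))).2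
    · rw [cs_mid h1 hiN]
      apply hbQ j l i hjN h0 hiN
      exact Q_neg hj0 hjN hl0 h0 h1 hiN (Or.inr hlt)
  have T : ∀ {x w : ℕ}, w < k → lv k x = w → el k x = w := by
    intro x w h1 h2; unfold el; omega
  have F : ∀ {x w : ℕ}, w < k → w < lv k x → ¬ el k x = w := by
    intro x w h1 h2; unfold el; omega
  have Le : ∀ {x w : ℕ}, w < k → w ≤ lv k x → w ≤ el k x := by
    intro x w h1 h2; unfold el; omega
  rcases lt_trichotomy (lv k i) (lv k j) with h1 | h1 | h1
  · rcases lt_trichotomy (lv k i) (lv k l) with h2 | h2 | h2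
    · -- i unique lowest
      have hw : lv k i < k := by omega
      refine ⟨lv k i, Le hw le_rfl, Le hw h1.le, Le hw h2.le, ?_, ?_⟩
      · rintro (h | h | h) <;> omega
      · intro _
        rw [if_neg (F hw h1), if_pos (T hw rfl), if_neg (F hw h2)]
        have := kap_pos (κ := κ) hb hw
        nlinarith [mul_pos this hAi]
    · -- i, l tie
      have hw : lv k i < k := by omega
      refine ⟨lv k i, Le hw le_rfl, Le hw h1.le, Le hw h2.le, ?_, ?_⟩
      · rintro (h | h | h) <;> omega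
      · intro _
        rw [if_neg (F hw h1), if_pos (T hw rfl), if_pos (T hw h2.symm)]
        have k1 := kap_pos (κ := κ) hb hw
        have k2 := kap_pos (κ := κ) hb (h2 ▸ hw)
        nlinarith [mul_pos k1 hAi, mul_nonneg k2.le hAl.le]
    · -- l unique lowest
      have hw : lv k l < k := by omega
      refine ⟨lv k l, Le hw h2.le, Le hw (h2.trans h1).le, Le hw le_rfl, ?_, ?_⟩
      · rintro (h | h | h) <;> omega
      · intro _
        rw [if_neg (F hw (h2.trans h1)), if_neg (F hw h2), if_pos (T hw rfl)]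
        have := kap_pos (κ := κ) hb hw
        nlinarith [mul_pos this hAl]
  · rcases lt_trichotomy (lv k j) (lv k l) with h2 | h2 | h2
    · -- i, j tie, l older
      have hw : lv k j < k := by omega
      have hwi : lv k i < k := by omega
      have hi0' := hi0 hwi
      refine ⟨lv k j, Le hw h1.ge, Le hw le_rfl, Le hw h2.le, ?_, ?_⟩
      · rintro (h | h | h)
        · omega
        · rw [if_pos (T hw rfl), if_pos (T hw h1), if_neg (F hw h2), id1 hwi hw, add_zero]
          exact mul_pos (dij hi0') (br1p hi0' h.2.2)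
        · omega
      · intro hX
        have hlt : i + j < l := by
          by_contra h
          exact hX (Or.inr (Or.inl ⟨h1, h2, not_lt.mp h⟩))
        rw [if_pos (T hw rfl), if_pos (T hw h1), if_neg (F hw h2), add_zero]
        have := mul_pos_of_neg_of_neg (neg_neg_of_pos (dij hi0')) (br1n hi0' hlt)
        have e := id1 hwi hw
        linarith
    · -- all tie
      have hw : lv k j < k := by omega
      have hwi : lv k i < k := by omega
      have hwl : lv k l < k := by omega
      have hi0' := hi0 hwi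
      have hlN' := hlN hwl
      refine ⟨lv k j, Le hw h1.ge, Le hw le_rfl, Le hw h2.le, ?_, ?_⟩
      · rintro (h | h | h) <;> omega
      · intro _
        rw [if_pos (T hw rfl), if_pos (T hw h1), if_pos (T hw h2.symm), kap_mid hw, kap_mid hwi,
          kap_mid hwl, cs_mid hi0' hiN, cs_mid hj0 hjN, cs_mid hl0 hlN']
        have e1 := dij hi0'
        have e2 := djl hlN'
        have e3 : 0 < cc (tp k) i - cc (tp k) l := by linarith
        have : -((cc (tp k) j ^ 2 + b) * (cc (tp k) i - cc (tp k) l)) +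
            (cc (tp k) i ^ 2 + b) * (cc (tp k) j - cc (tp k) l) +
            (cc (tp k) l ^ 2 + b) * (cc (tp k) i - cc (tp k) j) =
            (cc (tp k) i - cc (tp k) j) * (cc (tp k) j - cc (tp k) l) *
              (cc (tp k) i - cc (tp k) l) := by ring
        rw [this]; positivity
    · -- l unique lowest
      have hw : lv k l < k := by omega
      refine ⟨lv k l, Le hw (by omega), Le hw h2.le, Le hw le_rfl, ?_, ?_⟩
      · rintro (h | h | h) <;> omega
      · intro _
        rw [if_neg (F hw h2), if_neg (F hw (by omega)), if_pos (T hw rfl)]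
        have := kap_pos (κ := κ) hb hw
        nlinarith [mul_pos this hAl]
  · rcases lt_trichotomy (lv k j) (lv k l) with h2 | h2 | h2
    · -- j unique lowest
      have hw : lv k j < k := by omega
      refine ⟨lv k j, Le hw h1.le, Le hw le_rfl, Le hw h2.le, ?_, ?_⟩
      · intro _
        rw [if_pos (T hw rfl), if_neg (F hw h1), if_neg (F hw h2)]
        have := kap_pos (κ := κ) hb hw
        nlinarith [mul_pos this hAj]
      · intro hX
        exact absurd (Or.inl ⟨h1, h2⟩) hX
    · -- j, l tie, i older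
      have hw : lv k j < k := by omega
      have hwl : lv k l < k := by omega
      have hlN' := hlN hwl
      refine ⟨lv k j, Le hw h1.le, Le hw le_rfl, Le hw h2.le, ?_, ?_⟩
      · rintro (h | h | h)
        · omega
        · omega
        · rw [if_pos (T hw rfl), if_neg (F hw h1), if_pos (T hw h2.symm)]
          have e := id2 hw hwl
          have := mul_pos (djl hlN') (br2p hlN' h.2.2)
          linarith
      · intro hX
        have hlt : tp k + i < j + l := by
          by_contra h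
          exact hX (Or.inr (Or.inr ⟨h2, h1, not_lt.mp h⟩))
        rw [if_pos (T hw rfl), if_neg (F hw h1), if_pos (T hw h2.symm)]
        have := mul_pos_of_neg_of_neg (neg_neg_of_pos (djl hlN')) (br2n hlN' hlt)
        have e := id2 hw hwl
        linarith
    · -- l unique lowest
      have hw : lv k l < k := by omega
      refine ⟨lv k l, Le hw (by omega), Le hw h2.le, Le hw le_rfl, ?_, ?_⟩
      · rintro (h | h | h) <;> omega
      · intro _
        rw [if_neg (F hw h2), if_neg (F hw (by omega)), if_pos (T hw rfl)]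
        have := kap_pos (κ := κ) hb hw
        nlinarith [mul_pos this hAl]

end Pool.Agent.Helper30.KP
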