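import Pool.Agent.Helper68.KP.StR

set_option autoImplicit false

namespace Pool.Agent.Helper30.KP

open Pool.Agent.Helper68.KP Polynomial

/-- EGB: eigenvalue bounds. -/
theorem hEGB (hEIG : StEIG) : Pool.Agent.Helper68.KP.StEGB := by
  intro A _ _ E ip M hSG hHF W hDD hSA a b hEB k
  induction k with
  | zero =>
    intro e w he hw
    have h1m : (1 : A) ∈ E 0 := by
      rw [hSG.zero]
      exact Submodule.subset_span rfl
    have hu : W 0 ⟨1, h1m⟩ = 0 := by
      have h := hDD 0 0 ⟨1, h1m⟩ ⟨1, h1m⟩ ⟨1, h1m⟩ (by simp)
      simp only [mul_one, one_mul] at h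
      apply Subtype.ext
      have h' : (W 0 ⟨1, h1m⟩ : A) = W 0 ⟨1, h1m⟩ + W 0 ⟨1, h1m⟩ := h
      simpa using h'
    have hem : (e : A) ∈ Submodule.span ℂ ({1} : Set A) := by
      rw [← hSG.zero]
      exact e.2
    obtain ⟨c, hc⟩ := Submodule.mem_span_singleton.mp hem
    have hec : e = c • (⟨1, h1m⟩ : E 0) := Subtype.ext (by
      rw [Submodule.coe_smul]
      exact hc.symm)
    have h2 : (w : ℂ) • e = 0 := by
      rw [← hw, hec, map_smul, hu, smul_zero]
    have h3 : (w : ℂ) = 0 := (smul_eq_zero.mp h2).resolve_right he
    have h4 : w = 0 := by exact_mod_cast h3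
    rw [h4]
    simp
  | succ k ih =>
    rcases Nat.eq_zero_or_pos k with h0 | h0
    · subst h0
      have : ((0 + 1 : ℕ) : ℝ) = 1 := by norm_num
      rw [this, one_mul, one_mul]
      exact hEB
    · haveI := hSG.fd k
      haveI := hSG.fd 1
      obtain ⟨e, w, -, he2, he3, he4, -⟩ := hEIG A E ip k (hSG.fd k) hHF W hSA
      obtain ⟨e', w', -, he2', he3', he4', -⟩ := hEIG A E ip 1 (hSG.fd 1) hHF W hSA
      intro v μ hv hμ
      set P : ℂ[X] := ∏ i, ∏ j, (X - C ((w i + w' j : ℝ) : ℂ)) with hP
      have hroot : ∀ i j, P.eval ((w i + w' j : ℝ) : ℂ) = 0 := by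
        intro i j
        rw [hP, eval_prod]
        apply Finset.prod_eq_zero (Finset.mem_univ i)
        rw [eval_prod]
        apply Finset.prod_eq_zero (Finset.mem_univ j)
        simp
      have hkey : ∀ (g : E (k+1)) (r : ℂ), W (k+1) g = r • g →
          aeval (W (k+1)) P g = P.eval r • g := by
        intro g r hg
        by_cases hg0 : g = 0
        · rw [hg0, map_zero, smul_zero]
        · exact Module.End.aeval_apply_of_hasEigenvector
            ⟨Module.End.mem_eigenspace_iff.mpr hg, hg0⟩
      have hbase : ∀ i j, ((e i : A) * (e' j : A)) ∈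
          Submodule.map (E (k+1)).subtype (LinearMap.ker (aeval (W (k+1)) P)) := by
        intro i j
        refine ⟨⟨(e i : A) * (e' j : A), hSG.mul k 1 _ _ (e i).2 (e' j).2⟩, ?_, rfl⟩
        have hT : W (k+1) ⟨(e i : A) * (e' j : A), hSG.mul k 1 _ _ (e i).2 (e' j).2⟩ =
            ((w i + w' j : ℝ) : ℂ) • ⟨(e i : A) * (e' j : A), hSG.mul k 1 _ _ (e i).2 (e' j).2⟩ := by
          apply Subtype.ext
          rw [hDD k 1 (e i) (e' j) _ rfl, he2, he2']
          simp only [Submodule.coe_smul, Submodule.coe_mk]
          rw [smul_mul_assoc, mul_smul_comm, ← add_smul]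
          push_cast
          rfl
        have := hkey _ _ hT
        rw [hroot, zero_smul] at this
        exact LinearMap.mem_ker.mpr this
      have hprod : ∀ (f : E k) (f' : E 1), ((f : A) * (f' : A)) ∈
          Submodule.map (E (k+1)).subtype (LinearMap.ker (aeval (W (k+1)) P)) := by
        intro f f'
        have hf : f ∈ Submodule.span ℂ (Set.range e) := by
          rw [he4]
          trivial
        have hf' : f' ∈ Submodule.span ℂ (Set.range e') := by
          rw [he4']
          trivial
        induction hf using Submodule.span_induction with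
        | mem x hx =>
          obtain ⟨i, rfl⟩ := hx
          induction hf' using Submodule.span_induction with
          | mem y hy =>
            obtain ⟨j, rfl⟩ := hy
            exact hbase i j
          | zero =>
            rw [Submodule.coe_zero, mul_zero]
            exact Submodule.zero_mem _
          | add y z _ _ hy hz =>
            rw [Submodule.coe_add, mul_add]
            exact Submodule.add_mem _ hy hz
          | smul c y _ hy =>
            rw [Submodule.coe_smul, mul_smul_comm]
            exact Submodule.smul_mem _ c hy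
        | zero =>
          rw [Submodule.coe_zero, zero_mul]
          exact Submodule.zero_mem _
        | add y z _ _ hy hz =>
          rw [Submodule.coe_add, add_mul]
          exact Submodule.add_mem _ hy hz
        | smul c y _ hy =>
          rw [Submodule.coe_smul, smul_mul_assoc]
          exact Submodule.smul_mem _ c hy
      have hall : E (k+1) ≤
          Submodule.map (E (k+1)).subtype (LinearMap.ker (aeval (W (k+1)) P)) := by
        conv_lhs => rw [hSG.gen k h0]
        rw [Submodule.span_le]
        rintro x ⟨f, f', hf, hf', rfl⟩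
        exact hprod ⟨f, hf⟩ ⟨f', hf'⟩
      obtain ⟨v', hv', hvv⟩ := hall v.2
      have hvv' : v' = v := Subtype.ext hvv
      rw [hvv'] at hv'
      have h5 : P.eval (μ : ℂ) • v = 0 := by
        rw [← hkey v _ hμ]
        exact LinearMap.mem_ker.mp hv'
      have h6 : P.eval (μ : ℂ) = 0 := (smul_eq_zero.mp h5).resolve_right hv
      rw [hP, eval_prod, Finset.prod_eq_zero_iff] at h6
      obtain ⟨i, -, h7⟩ := h6
      rw [eval_prod, Finset.prod_eq_zero_iff] at h7
      obtain ⟨j, -, h8⟩ := h7
      rw [eval_sub, eval_X, eval_C, sub_eq_zero] at h8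
      have h9 : μ = w i + w' j := by exact_mod_cast h8
      have hi := ih (e i) (w i) (he3.ne_zero i) (he2 i)
      have hj := hEB (e' j) (w' j) (he3'.ne_zero j) (he2' j)
      rw [h9]
      push_cast
      constructor <;> linarith [hi.1, hi.2, hj.1, hj.2]

end Pool.Agent.Helper30.KP
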