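import Pool.Agent.Helper30.KP.Lead
import Pool.Agent.Helper30.KP.Base

/-!
# The realization
-/

namespace Pool.Agent.Helper30.KP

open Finset Filter Topology

/-- orientation of the removed line with slope `s` and intercept `H` and of two other lines -/
def W (m K : ℕ → ℝ) (s H : ℝ) (i j : ℕ) : ℝ :=
  K i * (m j - s) - H * (m j - m i) - K j * (m i - s)

/-- realizations of the rule by straight lines -/
structure Rz (k : ℕ) (m K : ℕ → ℝ) (s H : ℝ) : Prop where
  mono : ∀ i j, i < j → j ≤ tp k → m i < m j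
  low : ∀ i, i ≤ tp k → s < m i
  sgn : ∀ i j l, i < j → j < l → l ≤ tp k → Gs k i j l →
    (Xr k i j l → 0 < G m K i j l) ∧ (¬ Xr k i j l → G m K i j l < 0)
  wsgn : ∀ i j, i < j → j ≤ tp k → Ws k i j →
    (Yr k i j → 0 < W m K s H i j) ∧ (¬ Yr k i j → W m K s H i j < 0)
  bs : ∀ i j l, i < j → j < l → l ≤ 6 → Sg (bt i j l) (G m K (i * 2 ^ k) (j * 2 ^ k) (l * 2 ^ k))
  bws : ∀ i j, i < j → j ≤ 6 → Sg (bw i j) (W m K s H (i * 2 ^ k) (j * 2 ^ k))

lemma lv_base (k j : ℕ) : lv k (j * 2 ^ k) = k + (1 - j % 2) := by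
  rcases Nat.even_or_odd' j with ⟨a, ha | ha⟩
  · have h1 : k + 1 ≤ lv k (j * 2 ^ k) := by
      rw [le_lv_iff le_rfl, ha, pow_succ]
      exact ⟨a, by ring⟩
    have h2 := lv_le k (j * 2 ^ k)
    have h3 : j % 2 = 0 := by omega
    rw [h3]; omega
  · have h1 : lv k (j * 2 ^ k) = k := lv_of_mod (a := a) (by omega) (by rw [ha, pow_succ]; ring)
    have h3 : j % 2 = 1 := by omega
    rw [h1, h3]
    rfl

lemma base_of_lv {k x : ℕ} (h : ¬ lv k x < k) (hx : x ≤ tp k) : ∃ j, j ≤ 6 ∧ x = j * 2 ^ k := by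
  obtain ⟨a, ha⟩ := (le_lv_iff (by omega : k ≤ k + 1)).mp (not_lt.mp h)
  refine ⟨a, ?_, by rw [ha]; ring⟩
  rw [ha, tp, mul_comm] at hx
  exact Nat.le_of_mul_le_mul_right hx (by positivity)

/-- the rule for three base lines -/
def X6 (i j l : ℕ) : Prop :=
  (1 - j % 2 < 1 - i % 2 ∧ 1 - j % 2 < 1 - l % 2) ∨
  (1 - i % 2 = 1 - j % 2 ∧ 1 - j % 2 < 1 - l % 2 ∧ l ≤ i + j) ∨
  (1 - j % 2 = 1 - l % 2 ∧ 1 - j % 2 < 1 - i % 2 ∧ j + l ≤ 6 + i)

instance (i j l : ℕ) : Decidable (X6 i j l) := by unfold X6; infer_instance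

lemma Xr_base (k i j l : ℕ) : Xr k (i * 2 ^ k) (j * 2 ^ k) (l * 2 ^ k) ↔ X6 i j l := by
  have hp : 0 < 2 ^ k := by positivity
  have e1 : l * 2 ^ k ≤ i * 2 ^ k + j * 2 ^ k ↔ l ≤ i + j := by
    rw [← add_mul]; exact Nat.mul_le_mul_right_iff hp
  have e2 : j * 2 ^ k + l * 2 ^ k ≤ tp k + i * 2 ^ k ↔ j + l ≤ 6 + i := by
    rw [tp, ← add_mul, ← add_mul]; exact Nat.mul_le_mul_right_iff hp
  unfold Xr X6
  rw [lv_base, lv_base, lv_base, e1, e2]
  omega

lemma table_X' : ∀ i j l : Fin 7, i < j → j < l → ((j : ℕ) = i + 1 ∨ (l : ℕ) = j + 1) →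
    ((bt i j l = 1 ∧ X6 i j l) ∨ (bt i j l = -1 ∧ ¬ X6 i j l)) := by decide

lemma table_X {i j l : ℕ} (hl : l < 7) (h1 : i < j) (h2 : j < l) (h : j = i + 1 ∨ l = j + 1) :
    ((bt i j l = 1 ∧ X6 i j l) ∨ (bt i j l = -1 ∧ ¬ X6 i j l)) :=
  table_X' ⟨i, by omega⟩ ⟨j, by omega⟩ ⟨l, hl⟩ h1 h2 h

lemma Yr_base (k i : ℕ) (hi : i < 6) :
    Yr k (i * 2 ^ k) ((i + 1) * 2 ^ k) ↔ i % 2 = 1 := by
  unfold Yr
  rw [lv_base, lv_base]
  omega

lemma table_Y : ∀ i < 6, (bw i (i + 1) = 1 ∧ i % 2 = 1) ∨ (bw i (i + 1) = -1 ∧ ¬ i % 2 = 1) := by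
  decide

lemma base_diff {k i j : ℕ} (h : i * 2 ^ k + 2 ^ k = j * 2 ^ k) : j = i + 1 := by
  have h1 : (i + 1) * 2 ^ k = j * 2 ^ k := by rw [add_mul, one_mul]; exact h
  exact (Nat.eq_of_mul_eq_mul_right (by positivity) h1).symm

/-- three adjacent base lines follow the rule -/
lemma adj_sgn {k : ℕ} {m K : ℕ → ℝ}
    (hbs : ∀ i j l, i < j → j < l → l ≤ 6 →
      Sg (bt i j l) (G m K (i * 2 ^ k) (j * 2 ^ k) (l * 2 ^ k)))
    (hs : ∀ i j l, i < j → j < l → l ≤ tp k → (lv k i < k ∨ lv k j < k ∨ lv k l < k) →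
      (Xr k i j l → 0 < G m K i j l) ∧ (¬ Xr k i j l → G m K i j l < 0)) :
    ∀ i j l, i < j → j < l → l ≤ tp k → Gs k i j l →
      (Xr k i j l → 0 < G m K i j l) ∧ (¬ Xr k i j l → G m K i j l < 0) := by
  intro i j l hij hjl hl hG
  by_cases hlow : lv k i < k ∨ lv k j < k ∨ lv k l < k
  · exact hs i j l hij hjl hl hlow
  push Not at hlow
  obtain ⟨b1, b2, b3⟩ := hlow
  have g1 := gap_base b1 b2 hij
  have g2 := gap_base b2 b3 hjl
  have hp : 0 < 2 ^ k := by positivity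
  obtain ⟨i', hi', rfl⟩ := base_of_lv (not_lt.mpr b1) (by omega)
  obtain ⟨j', hj', rfl⟩ := base_of_lv (not_lt.mpr b2) (by omega)
  obtain ⟨l', hl', rfl⟩ := base_of_lv (not_lt.mpr b3) (by omega)
  have h1 : i' < j' := Nat.lt_of_mul_lt_mul_right hij
  have h2 : j' < l' := Nat.lt_of_mul_lt_mul_right hjl
  have hadj : j' = i' + 1 ∨ l' = j' + 1 := by
    unfold Gs at hG
    rcases hG with h | h | h | h | h | h | h | h | h
    · omega
    · omega
    · omega
    · exact Or.inl (base_diff h)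
    · omega
    · omega
    · omega
    · exact Or.inr (base_diff h)
    · omega
  have hb := hbs i' j' l' h1 h2 hl'
  rw [Xr_base]
  rcases table_X (by omega) h1 h2 hadj with ⟨t1, t2⟩ | ⟨t1, t2⟩
  · exact ⟨fun _ => hb.1 t1, fun h => absurd t2 h⟩
  · exact ⟨fun h => absurd h t2, fun _ => hb.2.2 t1⟩

lemma adj_wsgn {k : ℕ} {m K : ℕ → ℝ} {s H : ℝ}
    (hbw : ∀ i j, i < j → j ≤ 6 → Sg (bw i j) (W m K s H (i * 2 ^ k) (j * 2 ^ k)))
    (hs : ∀ i j, i < j → j ≤ tp k → (lv k i < k ∨ lv k j < k) →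
      (Yr k i j → 0 < W m K s H i j) ∧ (¬ Yr k i j → W m K s H i j < 0)) :
    ∀ i j, i < j → j ≤ tp k → Ws k i j →
      (Yr k i j → 0 < W m K s H i j) ∧ (¬ Yr k i j → W m K s H i j < 0) := by
  intro i j hij hj hW
  by_cases hlow : lv k i < k ∨ lv k j < k
  · exact hs i j hij hj hlow
  push Not at hlow
  obtain ⟨b1, b2⟩ := hlow
  have hp : 0 < 2 ^ k := by positivity
  obtain ⟨i', hi', rfl⟩ := base_of_lv (not_lt.mpr b1) (by omega)
  obtain ⟨j', hj', rfl⟩ := base_of_lv (not_lt.mpr b2) (by omega)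
  have hadj : j' = i' + 1 := by
    unfold Ws at hW
    rcases hW with h | h | h | h
    · omega
    · omega
    · exact base_diff h
    · omega
  subst hadj
  have hb := hbw i' (i' + 1) (by omega) hj'
  rw [Yr_base k i' (by omega)]
  rcases table_Y i' (by omega) with ⟨t1, t2⟩ | ⟨t1, t2⟩
  · exact ⟨fun _ => hb.1 t1, fun h => absurd t2 h⟩
  · exact ⟨fun h => absurd h t2, fun _ => hb.2.2 t1⟩

lemma slope_base {k : ℕ} {C0 C1 : ℝ} {j : ℕ} (hj : j ≤ 6) :
    - cs (tp k) C0 C1 (j * 2 ^ k) = 1 / Real.sqrt 3 * mu (Real.sqrt 3 * C0) (Real.sqrt 3 * C1) j := by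
  have hp : 0 < 2 ^ k := by positivity
  have h3 : 0 < Real.sqrt 3 := by positivity
  have hsq : Real.sqrt 3 * Real.sqrt 3 = 3 := Real.mul_self_sqrt (by norm_num)
  have hm : ∀ i, 0 < i → i < 6 → cs (tp k) C0 C1 (i * 2 ^ k) = cc 6 i := by
    intro i h0 h6
    rw [cs_mid (by positivity) (by unfold tp; exact Nat.mul_lt_mul_of_pos_right h6 hp)]
    unfold tp
    exact cc_scale hp
  have h1 := cc_six_one
  have h2 := cc_six_two
  have h2' : cc 6 2 = 1 / Real.sqrt 3 := by field_simp; exact h2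
  interval_cases j
  · rw [zero_mul, cs_zero]
    simp only [mu, if_true]
    field_simp
  · rw [hm 1 (by norm_num) (by norm_num), h1]
    norm_num [mu]
    field_simp
    nlinarith
  · rw [hm 2 (by norm_num) (by norm_num), h2']
    norm_num [mu]
  · rw [hm 3 (by norm_num) (by norm_num), cc_six_three]
    norm_num [mu]
  · rw [hm 4 (by norm_num) (by norm_num), cc_six_four, h2']
    norm_num [mu]
  · rw [hm 5 (by norm_num) (by norm_num), cc_six_five, h1]
    norm_num [mu]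
    field_simp
    nlinarith
  · have : cs (tp k) C0 C1 (6 * 2 ^ k) = -C1 := by
      have := cs_top (tp_pos k) (C0 := C0) (C1 := C1)
      unfold tp at this ⊢
      exact this
    rw [this]
    norm_num [mu]

/-- **Realization.** -/
theorem exists_real (k : ℕ) : ∃ (m K : ℕ → ℝ) (s H : ℝ), Rz k m K s H := by
  classical
  obtain ⟨b, hb, hbQ⟩ := exists_b (tp k)
  obtain ⟨C0, B0, hC0⟩ := ((eventually_big (tp k) b).and (eventually_ge_atTop (100 : ℝ))).exists
  obtain ⟨C1, B1, hC1⟩ := ((eventually_big (tp k) b).and (eventually_ge_atTop (100 * C0))).exists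
  have p0 : 0 < C0 := by linarith
  have p1 : 0 < C1 := by linarith
  have h3 : 1 ≤ Real.sqrt 3 := by
    rw [show (1 : ℝ) = Real.sqrt 1 by simp]
    exact Real.sqrt_le_sqrt (by norm_num)
  set p : ℝ := Real.sqrt 3 * C0 with hp_def
  set q : ℝ := Real.sqrt 3 * C1 with hq_def
  have hp : 100 ≤ p := by nlinarith
  have hq : 100 * p ≤ q := by nlinarith
  set e : ℝ := -2 * p / (1 + p) with he_def
  set f : ℝ := 4 + 3 / p with hf_def
  have he : e * (1 + p) = -2 * p := by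
    rw [he_def]; field_simp
  have hf : f * p = 4 * p + 3 := by
    rw [hf_def]; field_simp
  let κ : ℕ → ℝ := fun i => kb p e f (i / 2 ^ k)
  let κ' : ℕ → ℝ := fun i => if i = 0 then 2 else κ i
  let m : ℕ → ℝ := fun i => - cs (tp k) C0 C1 i
  let K : ℝ → ℕ → ℝ := fun δ i => δ ^ el k i * kap k b κ i
  let H : ℝ → ℝ := fun δ => δ ^ k * 2
  have hG : ∀ δ i j l, G m (K δ) i j l =
      δ ^ el k j * (kap k b κ j * (cs (tp k) C0 C1 i - cs (tp k) C0 C1 l)) +
      δ ^ el k i * (-(kap k b κ i * (cs (tp k) C0 C1 j - cs (tp k) C0 C1 l))) +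
      δ ^ el k l * (-(kap k b κ l * (cs (tp k) C0 C1 i - cs (tp k) C0 C1 j))) := by
    intro δ i j l
    simp only [G, m, K]; ring
  have hel0 : el k 0 = k := by unfold el; rw [lv_zero]; omega
  have hkap0 : kap k b κ' 0 = 2 := by
    unfold kap; rw [lv_zero, if_neg (by omega)]; simp [κ']
  have hkapi : ∀ i, 0 < i → kap k b κ' i = kap k b κ i := by
    intro i hi
    unfold kap
    have : κ' i = κ i := by simp [κ', hi.ne']
    rw [this]
  have hcsi : ∀ i, 0 < i → cs (tp k) C1 C1 i = cs (tp k) C0 C1 i := by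
    intro i hi
    unfold cs
    rw [if_neg hi.ne', if_neg hi.ne']
  have hW : ∀ δ i j, 0 < i → 0 < j → W m (K δ) (-C1) (H δ) i j =
      δ ^ el k i * (kap k b κ' i * (cs (tp k) C1 C1 0 - cs (tp k) C1 C1 j)) +
      δ ^ el k 0 * (-(kap k b κ' 0 * (cs (tp k) C1 C1 i - cs (tp k) C1 C1 j))) +
      δ ^ el k j * (-(kap k b κ' j * (cs (tp k) C1 C1 0 - cs (tp k) C1 C1 i))) := by
    intro δ i j hi hj
    rw [hkap0, hkapi i hi, hkapi j hj, hcsi i hi, hcsi j hj, cs_zero, hel0]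
    simp only [W, m, K, H]; ring
  have hev : ∀ᶠ δ in 𝓝[>] (0 : ℝ), ∀ x : Fin (tp k + 1) × Fin (tp k + 1) × Fin (tp k + 1),
      x.1 < x.2.1 → x.2.1 < x.2.2 →
      (lv k x.1 < k ∨ lv k x.2.1 < k ∨ lv k x.2.2 < k) →
      (Xr k x.1 x.2.1 x.2.2 → 0 < G m (K δ) x.1 x.2.1 x.2.2) ∧
      (¬ Xr k x.1 x.2.1 x.2.2 → G m (K δ) x.1 x.2.1 x.2.2 < 0) := by
    rw [eventually_all]
    rintro ⟨i, j, l⟩
    by_cases hij : i < j
    swap
    · filter_upwards with δ h
      exact absurd h hij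
    by_cases hjl : j < l
    swap
    · filter_upwards with δ _ h
      exact absurd h hjl
    by_cases hlow : lv k i < k ∨ lv k j < k ∨ lv k l < k
    swap
    · filter_upwards with δ _ _ h
      exact absurd h hlow
    have hij' : (i : ℕ) < (j : ℕ) := hij
    have hjl' : (j : ℕ) < (l : ℕ) := hjl
    have hl' : (l : ℕ) ≤ tp k := by have := l.isLt; omega
    obtain ⟨w, w1, w2, w3, hp, hn⟩ :=
      leading (κ := κ) hb hbQ p0 p1 B0 B1 hij' hjl' hl' hlow
    by_cases hX : Xr k i j l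
    · have := lead _ _ _ w _ _ _ w2 w1 w3 (hp hX)
      filter_upwards [this] with δ hδ _ _ _
      refine ⟨fun _ => ?_, fun h => absurd hX h⟩
      rw [hG]; exact hδ
    · have := lead _ _ _ w _ _ _ w2 w1 w3 (hn hX)
      filter_upwards [this] with δ hδ _ _ _
      refine ⟨fun h => absurd h hX, fun _ => ?_⟩
      rw [hG]
      linarith
  have hev2 : ∀ᶠ δ in 𝓝[>] (0 : ℝ), ∀ x : Fin (tp k + 1) × Fin (tp k + 1),
      0 < (x.1 : ℕ) → x.1 < x.2 → (lv k x.1 < k ∨ lv k x.2 < k) →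
      (Yr k x.1 x.2 → 0 < W m (K δ) (-C1) (H δ) x.1 x.2) ∧
      (¬ Yr k x.1 x.2 → W m (K δ) (-C1) (H δ) x.1 x.2 < 0) := by
    rw [eventually_all]
    rintro ⟨i, j⟩
    by_cases hi0 : 0 < (i : ℕ)
    swap
    · filter_upwards with δ h
      exact absurd h hi0
    by_cases hij : i < j
    swap
    · filter_upwards with δ _ h
      exact absurd h hij
    by_cases hlow : lv k i < k ∨ lv k j < k
    swap
    · filter_upwards with δ _ _ h
      exact absurd h hlow
    have hij' : (i : ℕ) < (j : ℕ) := hij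
    have hj' : (j : ℕ) ≤ tp k := by have := j.isLt; omega
    obtain ⟨w, w1, w2, w3, hp, hn⟩ :=
      leading (κ := κ') hb hbQ p1 p1 B1 B1 hi0 hij' hj' (Or.inr hlow)
    have hXY : Xr k 0 i j ↔ Yr k i j := by
      unfold Xr Yr
      rw [lv_zero]
      have := lv_le k i
      have := lv_le k j
      omega
    rw [hXY] at hp hn
    by_cases hX : Yr k i j
    · have := lead _ _ _ w _ _ _ w2 w1 w3 (hp hX)
      filter_upwards [this] with δ hδ _ _ _
      refine ⟨fun _ => ?_, fun h => absurd hX h⟩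
      rw [hW δ i j hi0 (hi0.trans hij')]; exact hδ
    · have := lead _ _ _ w _ _ _ w2 w1 w3 (hn hX)
      filter_upwards [this] with δ hδ _ _ _
      refine ⟨fun h => absurd h hX, fun _ => ?_⟩
      rw [hW δ i j hi0 (hi0.trans hij')]
      linarith
  obtain ⟨δ, ⟨hδ1, hδ2⟩, hδ0⟩ := ((hev.and hev2).and self_mem_nhdsWithin).exists
  have hδ0' : 0 < δ := hδ0
  have hmono : ∀ i j, i < j → j ≤ tp k → m i < m j := by
    intro i j hij hj
    exact neg_lt_neg (cs_anti p0 p1 B0.1 B1.1 hij hj)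
  have hlow : ∀ i, i ≤ tp k → -C1 < m i := by
    intro i hi
    have h1 : m 0 ≤ m i := by
      rcases Nat.eq_zero_or_pos i with h | h
      · rw [h]
      · exact (hmono 0 i h hi).le
    have h2 : m 0 = -C0 := by simp only [m, cs_zero]
    linarith
  have hKb : ∀ j, j ≤ 6 → K δ (j * 2 ^ k) = δ ^ k * kb p e f j := by
    intro j hj
    have h1 := lv_base k j
    have h2 : el k (j * 2 ^ k) = k := by unfold el; omega
    have h3 : kap k b κ (j * 2 ^ k) = kb p e f j := by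
      unfold kap
      rw [if_neg (by omega)]
      simp only [κ]
      rw [Nat.mul_div_cancel _ (by positivity)]
    simp only [K]
    rw [h2, h3]
  have hmb : ∀ j, j ≤ 6 → m (j * 2 ^ k) = 1 / Real.sqrt 3 * mu p q j := by
    intro j hj
    exact slope_base hj
  have hc : 0 < δ ^ k * (1 / Real.sqrt 3) := by positivity
  have hbs : ∀ i j l, i < j → j < l → l ≤ 6 →
      Sg (bt i j l) (G m (K δ) (i * 2 ^ k) (j * 2 ^ k) (l * 2 ^ k)) := by
    intro i j l hij hjl hl
    have h1 := (base_sgn hp hq he hf hij hjl hl).mul hc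
    have h2 : G m (K δ) (i * 2 ^ k) (j * 2 ^ k) (l * 2 ^ k) = δ ^ k * (1 / Real.sqrt 3) *
        (kb p e f j * (mu p q l - mu p q i) - kb p e f i * (mu p q l - mu p q j) -
          kb p e f l * (mu p q j - mu p q i)) := by
      unfold G
      rw [hKb i (by omega), hKb j (by omega), hKb l hl, hmb i (by omega), hmb j (by omega),
        hmb l hl]
      ring
    rw [h2]; exact h1
  have hbw : ∀ i j, i < j → j ≤ 6 →
      Sg (bw i j) (W m (K δ) (-C1) (H δ) (i * 2 ^ k) (j * 2 ^ k)) := by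
    intro i j hij hj
    have h1 := (base_w hp hq he hf hij hj).mul hc
    have h2 : W m (K δ) (-C1) (H δ) (i * 2 ^ k) (j * 2 ^ k) = δ ^ k * (1 / Real.sqrt 3) *
        (kb p e f i * (mu p q j - (-q)) - 2 * (mu p q j - mu p q i) -
          kb p e f j * (mu p q i - (-q))) := by
      have h4 : C1 = 1 / Real.sqrt 3 * q := by
        rw [hq_def]; field_simp
      unfold W
      rw [hKb i (by omega), hKb j (by omega), hmb i (by omega), hmb j (by omega)]
      simp only [H]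
      rw [h4]
      ring
    rw [h2]; exact h1
  refine ⟨m, K δ, -C1, H δ, hmono, hlow, adj_sgn hbs ?_, adj_wsgn hbw ?_, hbs, hbw⟩
  · intro i j l hij hjl hl hlw
    exact hδ1 (⟨i, by omega⟩, ⟨j, by omega⟩, ⟨l, by omega⟩) hij hjl hlw
  · intro i j hij hj hlw
    rcases Nat.eq_zero_or_pos i with h0 | h0
    · subst h0
      have hj0 : lv k j < k := by
        rcases hlw with h | h
        · rw [lv_zero] at h; omega
        · exact h
      have hY : ¬ Yr k 0 j := by
        unfold Yr; rw [lv_zero]; omega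
      refine ⟨fun h => absurd h hY, fun _ => ?_⟩
      have a1 : 0 < m j - (-C1) := by linarith [hlow j hj]
      have a2 : 0 < m j - m 0 := by linarith [hmono 0 j hij hj]
      have a3 : 0 < m 0 - (-C1) := by linarith [hlow 0 (Nat.zero_le _)]
      have a4 : K δ 0 = δ ^ k * (-p) := by
        have := hKb 0 (by norm_num)
        rw [zero_mul] at this
        rw [this]; simp [kb]
      have a5 : 0 < K δ j := by
        simp only [K]
        exact mul_pos (by positivity) (kap_pos hb hj0)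
      unfold W
      rw [a4]
      have b1 : 0 < δ ^ k * p * (m j - (-C1)) := by positivity
      have b2 : 0 < H δ * (m j - m 0) := by
        simp only [H]; positivity
      have b3 : 0 < K δ j * (m 0 - (-C1)) := mul_pos a5 a3
      linarith
    · exact hδ2 (⟨i, by omega⟩, ⟨j, by omega⟩) h0 hij hlw

end Pool.Agent.Helper30.KP
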