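import Mathlib

/-!
# Cotangents of the multiples of `π / N`
-/

namespace Pool.Agent.Helper30.KP

open Finset Filter Topology

/-- the leading term decides the sign -/
lemma lead (p q r w : ℕ) (a b c : ℝ) (hp : w ≤ p) (hq : w ≤ q) (hr : w ≤ r)
    (h : 0 < (if p = w then a else 0) + (if q = w then b else 0) + (if r = w then c else 0)) :
    ∀ᶠ δ in 𝓝[>] (0 : ℝ), 0 < δ ^ p * a + δ ^ q * b + δ ^ r * c := by
  let f : ℝ → ℝ := fun δ => δ ^ (p - w) * a + δ ^ (q - w) * b + δ ^ (r - w) * c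
  have hf : Continuous f := by simp only [f]; fun_prop
  have key : ∀ x : ℕ, w ≤ x → (0 : ℝ) ^ (x - w) = if x = w then 1 else 0 := by
    intro x hx
    split_ifs with h1
    · subst h1; simp
    · exact zero_pow (by omega)
  have h0 : 0 < f 0 := by
    simp only [f]
    rw [key p hp, key q hq, key r hr]
    convert h using 2 <;> split_ifs <;> simp
  have h1 : ∀ᶠ δ in 𝓝 (0 : ℝ), 0 < f δ :=
    hf.continuousAt.eventually (isOpen_Ioi.mem_nhds h0)
  have h2 : ∀ᶠ δ in 𝓝[>] (0 : ℝ), 0 < f δ := h1.filter_mono nhdsWithin_le_nhds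
  filter_upwards [h2, self_mem_nhdsWithin] with δ hδ hδ0
  have hδ0' : 0 < δ := hδ0
  have e : δ ^ p * a + δ ^ q * b + δ ^ r * c = δ ^ w * f δ := by
    simp only [f]
    have ex : ∀ x : ℕ, w ≤ x → δ ^ x = δ ^ w * δ ^ (x - w) := by
      intro x hx; rw [← pow_add]; congr 1; omega
    rw [ex p hp, ex q hq, ex r hr]; ring
  rw [e]; positivity

/-- the cotangents -/
noncomputable def cc (N i : ℕ) : ℝ :=
  Real.cos (i * Real.pi / N) / Real.sin (i * Real.pi / N)

/-- sign of the sine at a multiple of `π / N` -/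
lemma sin_mul_pos {N : ℕ} {x : ℝ} (h0 : 0 < x) (h1 : x < N) :
    0 < Real.sin (x * Real.pi / N) := by
  have hN : (0 : ℝ) < N := h0.trans h1
  apply Real.sin_pos_of_pos_of_lt_pi
  · positivity
  · rw [div_lt_iff₀ hN]
    nlinarith [Real.pi_pos]

lemma sin_mul_neg {N : ℕ} {x : ℝ} (h0 : x < 0) (h1 : -(N : ℝ) < x) :
    Real.sin (x * Real.pi / N) < 0 := by
  have h2 : x * Real.pi / N = -((-x) * Real.pi / N) := by ring
  rw [h2, Real.sin_neg]
  have := sin_mul_pos (N := N) (x := -x) (by linarith) (by linarith)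
  linarith

lemma sin_mul_neg' {N : ℕ} {x : ℝ} (h0 : (N : ℝ) < x) (h1 : x < 2 * N) :
    Real.sin (x * Real.pi / N) < 0 := by
  have hN : (0 : ℝ) < N := by linarith
  have h2 : x * Real.pi / N = (x - N) * Real.pi / N + Real.pi := by
    field_simp; ring
  rw [h2, Real.sin_add_pi]
  have := sin_mul_pos (N := N) (x := x - N) (by linarith) (by linarith)
  linarith

lemma sin_pos' {N i : ℕ} (h0 : 0 < i) (hi : i < N) :
    0 < Real.sin (i * Real.pi / N) :=
  sin_mul_pos (by exact_mod_cast h0) (by exact_mod_cast hi)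

lemma cc_sub {N i j : ℕ} (hi0 : 0 < i) (hi : i < N) (hj0 : 0 < j) (hj : j < N) :
    cc N i - cc N j = Real.sin (((j : ℝ) - i) * Real.pi / N) /
      (Real.sin (i * Real.pi / N) * Real.sin (j * Real.pi / N)) := by
  have s1 := (sin_pos' hi0 hi).ne'
  have s2 := (sin_pos' hj0 hj).ne'
  unfold cc
  have e : ((j : ℝ) - i) * Real.pi / N = j * Real.pi / N - i * Real.pi / N := by ring
  rw [e, Real.sin_sub]
  clear e
  generalize (i : ℝ) * Real.pi / N = A at *
  generalize (j : ℝ) * Real.pi / N = B at *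
  field_simp

lemma cc_add {N i j : ℕ} (hi0 : 0 < i) (hi : i < N) (hj0 : 0 < j) (hj : j < N) :
    cc N i + cc N j = Real.sin (((i : ℝ) + j) * Real.pi / N) /
      (Real.sin (i * Real.pi / N) * Real.sin (j * Real.pi / N)) := by
  have s1 := (sin_pos' hi0 hi).ne'
  have s2 := (sin_pos' hj0 hj).ne'
  unfold cc
  have e : ((i : ℝ) + j) * Real.pi / N = i * Real.pi / N + j * Real.pi / N := by ring
  rw [e, Real.sin_add]
  clear e
  generalize (i : ℝ) * Real.pi / N = A at *
  generalize (j : ℝ) * Real.pi / N = B at *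
  field_simp
  ring

lemma cc_Q {N i j l : ℕ} (hi0 : 0 < i) (hi : i < N) (hj0 : 0 < j) (hj : j < N)
    (hl0 : 0 < l) (hl : l < N) :
    1 - cc N i * cc N j + cc N l * (cc N i + cc N j) =
      Real.sin (((i : ℝ) + j - l) * Real.pi / N) /
      (Real.sin (i * Real.pi / N) * Real.sin (j * Real.pi / N) *
        Real.sin (l * Real.pi / N)) := by
  have s1 := (sin_pos' hi0 hi).ne'
  have s2 := (sin_pos' hj0 hj).ne'
  have s3 := (sin_pos' hl0 hl).ne'
  unfold cc
  have e : ((i : ℝ) + j - l) * Real.pi / N =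
      (i * Real.pi / N + j * Real.pi / N) - l * Real.pi / N := by ring
  rw [e, Real.sin_sub, Real.sin_add, Real.cos_add]
  clear e
  generalize (i : ℝ) * Real.pi / N = A at *
  generalize (j : ℝ) * Real.pi / N = B at *
  generalize (l : ℝ) * Real.pi / N = C at *
  field_simp
  ring

lemma cc_anti {N i j : ℕ} (hi0 : 0 < i) (hij : i < j) (hj : j < N) : cc N j < cc N i := by
  have h1 := cc_sub hi0 (hij.trans hj) (hi0.trans hij) hj
  have h2 : (0 : ℝ) < (j : ℝ) - i := by
    have : (i : ℝ) < j := by exact_mod_cast hij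
    linarith
  have h3 : (j : ℝ) - i < N := by
    have h4 : (j : ℝ) < N := by exact_mod_cast hj
    have h5 : (0 : ℝ) ≤ i := by positivity
    linarith
  have h4 := sin_mul_pos h2 h3
  have s1 := sin_pos' hi0 (hij.trans hj)
  have s2 := sin_pos' (hi0.trans hij) hj
  have : 0 < cc N i - cc N j := by rw [h1]; positivity
  linarith

/-- the bracket at `b = 1`, `i + j` against `l`: positive case -/
lemma Q_pos {N i j l : ℕ} (hi0 : 0 < i) (hi : i < N) (hj0 : 0 < j) (hj : j < N)
    (hl0 : 0 < l) (hl : l < N) (h : l < i + j) (h' : i + j < N + l) :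
    0 < 1 - cc N i * cc N j + cc N l * (cc N i + cc N j) := by
  rw [cc_Q hi0 hi hj0 hj hl0 hl]
  have s1 := sin_pos' hi0 hi
  have s2 := sin_pos' hj0 hj
  have s3 := sin_pos' hl0 hl
  have h1 : (l : ℝ) < i + j := by exact_mod_cast h
  have h2 : (i : ℝ) + j < N + l := by exact_mod_cast h'
  have := sin_mul_pos (N := N) (x := (i : ℝ) + j - l) (by linarith) (by linarith)
  positivity

lemma Q_zero {N i j l : ℕ} (hi0 : 0 < i) (hi : i < N) (hj0 : 0 < j) (hj : j < N)
    (hl0 : 0 < l) (hl : l < N) (h : l = i + j ∨ i + j = N + l) :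
    1 - cc N i * cc N j + cc N l * (cc N i + cc N j) = 0 := by
  rw [cc_Q hi0 hi hj0 hj hl0 hl]
  have hN : (N : ℝ) ≠ 0 := by
    have : 0 < N := hi0.trans hi
    positivity
  have h0 : Real.sin (((i : ℝ) + j - l) * Real.pi / N) = 0 := by
    rcases h with h | h
    · have h1 : (l : ℝ) = i + j := by exact_mod_cast h
      rw [h1]; simp
    · have h1 : (i : ℝ) + j = N + l := by exact_mod_cast h
      rw [h1]
      have : ((N : ℝ) + l - l) * Real.pi / N = Real.pi := by field_simp; ring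
      rw [this, Real.sin_pi]
  rw [h0, zero_div]

lemma Q_neg {N i j l : ℕ} (hi0 : 0 < i) (hi : i < N) (hj0 : 0 < j) (hj : j < N)
    (hl0 : 0 < l) (hl : l < N) (h : i + j < l ∨ N + l < i + j) :
    1 - cc N i * cc N j + cc N l * (cc N i + cc N j) < 0 := by
  rw [cc_Q hi0 hi hj0 hj hl0 hl]
  have s1 := sin_pos' hi0 hi
  have s2 := sin_pos' hj0 hj
  have s3 := sin_pos' hl0 hl
  have h0 : Real.sin (((i : ℝ) + j - l) * Real.pi / N) < 0 := by
    have hl' : (l : ℝ) < N := by exact_mod_cast hl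
    have hi' : (i : ℝ) < N := by exact_mod_cast hi
    have hj' : (j : ℝ) < N := by exact_mod_cast hj
    have hi0' : (0 : ℝ) < i := by exact_mod_cast hi0
    have hj0' : (0 : ℝ) < j := by exact_mod_cast hj0
    have hl0' : (0 : ℝ) < l := by exact_mod_cast hl0
    rcases h with h | h
    · have h1 : (i : ℝ) + j < l := by exact_mod_cast h
      exact sin_mul_neg (by linarith) (by linarith)
    · have h1 : N + (l : ℝ) < i + j := by exact_mod_cast h
      exact sin_mul_neg' (by linarith) (by linarith)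
  exact div_neg_of_neg_of_pos h0 (by positivity)

lemma cc_add_pos {N i j : ℕ} (hi0 : 0 < i) (hi : i < N) (hj0 : 0 < j) (hj : j < N)
    (h : i + j < N) : 0 < cc N i + cc N j := by
  rw [cc_add hi0 hi hj0 hj]
  have s1 := sin_pos' hi0 hi
  have s2 := sin_pos' hj0 hj
  have hi0' : (0 : ℝ) < i := by exact_mod_cast hi0
  have hj0' : (0 : ℝ) < j := by exact_mod_cast hj0
  have h1 : (i : ℝ) + j < N := by exact_mod_cast h
  have := sin_mul_pos (N := N) (x := (i : ℝ) + j) (by linarith) h1
  positivity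

lemma cc_add_zero {N i j : ℕ} (hi0 : 0 < i) (hi : i < N) (hj0 : 0 < j) (hj : j < N)
    (h : i + j = N) : cc N i + cc N j = 0 := by
  rw [cc_add hi0 hi hj0 hj]
  have hN : (N : ℝ) ≠ 0 := by
    have : 0 < N := hi0.trans hi
    positivity
  have h1 : (i : ℝ) + j = N := by exact_mod_cast h
  rw [h1]
  have : (N : ℝ) * Real.pi / N = Real.pi := by field_simp
  rw [this, Real.sin_pi, zero_div]

lemma cc_add_neg {N i j : ℕ} (hi0 : 0 < i) (hi : i < N) (hj0 : 0 < j) (hj : j < N)
    (h : N < i + j) : cc N i + cc N j < 0 := by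
  rw [cc_add hi0 hi hj0 hj]
  have s1 := sin_pos' hi0 hi
  have s2 := sin_pos' hj0 hj
  have hi' : (i : ℝ) < N := by exact_mod_cast hi
  have hj' : (j : ℝ) < N := by exact_mod_cast hj
  have h1 : N < (i : ℝ) + j := by exact_mod_cast h
  have := sin_mul_neg' (N := N) (x := (i : ℝ) + j) h1 (by linarith)
  exact div_neg_of_neg_of_pos this (by positivity)

/-- the cotangent depends only on the quotient -/
lemma cc_scale {N i u : ℕ} (hu : 0 < u) : cc (N * u) (i * u) = cc N i := by
  unfold cc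
  have h1 : (u : ℝ) ≠ 0 := by positivity
  have e : (((i * u : ℕ) : ℝ) * Real.pi / ((N * u : ℕ) : ℝ)) = (i : ℝ) * Real.pi / N := by
    push_cast
    rw [show (i : ℝ) * u * Real.pi = (i : ℝ) * Real.pi * u by ring]
    exact mul_div_mul_right _ _ h1
  rw [e]

lemma cc_six_one : cc 6 1 = Real.sqrt 3 := by
  unfold cc
  have e : ((1 : ℕ) : ℝ) * Real.pi / ((6 : ℕ) : ℝ) = Real.pi / 6 := by push_cast; ring
  rw [e, Real.cos_pi_div_six, Real.sin_pi_div_six]; ring

lemma cc_six_two : cc 6 2 * Real.sqrt 3 = 1 := by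
  unfold cc
  have e : ((2 : ℕ) : ℝ) * Real.pi / ((6 : ℕ) : ℝ) = Real.pi / 3 := by push_cast; ring
  rw [e, Real.cos_pi_div_three, Real.sin_pi_div_three]
  have h : Real.sqrt 3 ≠ 0 := by positivity
  field_simp

lemma cc_six_three : cc 6 3 = 0 := by
  have := cc_add_zero (N := 6) (i := 3) (j := 3) (by norm_num) (by norm_num) (by norm_num)
    (by norm_num) (by norm_num)
  linarith

lemma cc_six_four : cc 6 4 = - cc 6 2 := by
  have := cc_add_zero (N := 6) (i := 2) (j := 4) (by norm_num) (by norm_num) (by norm_num)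
    (by norm_num) (by norm_num)
  linarith

lemma cc_six_five : cc 6 5 = - cc 6 1 := by
  have := cc_add_zero (N := 6) (i := 1) (j := 5) (by norm_num) (by norm_num) (by norm_num)
    (by norm_num) (by norm_num)
  linarith

end Pool.Agent.Helper30.KP
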